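import Pool.Agent.H468.X15S.Loc2

/-!
# Squares in the fields of `p`-adic numbers and approximation of local points
-/

set_option autoImplicit false
set_option linter.all false

open scoped Classical

namespace Pool.Agent.H468.X15

section pad

variable {p : ℕ} [hp : Fact p.Prime]

theorem norm_two_le : ‖(2 : ℚ_[p])‖ ≤ 1 := by
  have := Padic.norm_int_le_one (p := p) 2
  exact_mod_cast this

theorem norm_four : ‖(4 : ℚ_[p])‖ = ‖(2 : ℚ_[p])‖ ^ 2 := by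
  rw [← norm_pow]; norm_num

theorem norm_four_le : ‖(4 : ℚ_[p])‖ ≤ 1 := by
  have := Padic.norm_int_le_one (p := p) 4
  exact_mod_cast this

theorem norm_four_pos : 0 < ‖(4 : ℚ_[p])‖ := norm_pos_iff.2 (by norm_num)

/-- numbers close to one are squares -/
theorem hens {e : ℚ_[p]} (h : ‖e‖ < ‖(4 : ℚ_[p])‖) : IsSquare (1 + e) := by
  have he1 : ‖e‖ ≤ 1 := h.le.trans norm_four_le
  let ε : ℤ_[p] := ⟨e, he1⟩
  let F : Polynomial ℤ_[p] := Polynomial.X ^ 2 - Polynomial.C (1 + ε)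
  have h1 : ‖F.aeval (1 : ℤ_[p])‖ < ‖F.derivative.aeval (1 : ℤ_[p])‖ ^ 2 := by
    have e1 : F.aeval (1 : ℤ_[p]) = -ε := by
      simp [F]
    have e2 : F.derivative.aeval (1 : ℤ_[p]) = 2 := by
      simp [F]
      norm_num
    rw [e1, e2, norm_neg]
    have e3 : ‖(2 : ℤ_[p])‖ = ‖(2 : ℚ_[p])‖ := by
      rw [PadicInt.norm_def]; rfl
    rw [e3, ← norm_four]
    exact h
  obtain ⟨z, hz, -⟩ := hensels_lemma h1
  refine ⟨z, ?_⟩
  have h2 : z ^ 2 - (1 + ε) = 0 := by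
    have : F.aeval z = z ^ 2 - (1 + ε) := by simp [F]
    rw [← this]; exact hz
  have h3 := congrArg (fun x : ℤ_[p] => (x : ℚ_[p])) h2
  simp only [PadicInt.coe_sub, PadicInt.coe_pow, PadicInt.coe_add, PadicInt.coe_one,
    PadicInt.coe_zero] at h3
  have h4 : ((ε : ℤ_[p]) : ℚ_[p]) = e := rfl
  rw [h4] at h3
  linear_combination -h3

/-- integers close to a `p`-adic integer -/
theorem exists_close {x : ℚ_[p]} (hx : ‖x‖ ≤ 1) {δ : ℝ} (hδ : 0 < δ) :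
    ∃ r : ℤ, ‖x - r‖ < δ := by
  obtain ⟨k, hk⟩ := PadicInt.exists_pow_neg_lt p hδ
  let z : ℤ_[p] := ⟨x, hx⟩
  refine ⟨(z.appr k : ℕ), ?_⟩
  have h1 := ((z - z.appr k).norm_le_pow_iff_mem_span_pow k).mpr (z.appr_spec k)
  have h2 : ‖x - ((z.appr k : ℕ) : ℤ)‖ = ‖z - z.appr k‖ := by
    rw [PadicInt.norm_def]
    push_cast
    rfl
  rw [h2]
  exact h1.trans_lt hk

/-- the decomposition of an integer that is a square in `ℚ_p` -/
theorem sq_dec {n : ℤ} (hn : n ≠ 0) (h : IsSquare (n : ℚ_[p])) : ∃ (k : ℕ) (u m : ℤ),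
    n = (p : ℤ) ^ (2 * k) * u ∧ ¬ (p : ℤ) ∣ u ∧ (p : ℤ) ^ 2 ∣ m ^ 2 - u := by
  obtain ⟨u, hu, hu'⟩ := dec (p := p) hn
  obtain ⟨z, hz⟩ := h
  have hz0 : z ≠ 0 := by
    rintro rfl
    rw [mul_zero] at hz
    exact hn (by exact_mod_cast hz)
  have hp1 : (1 : ℝ) < p := by exact_mod_cast hp.out.one_lt
  have hp0 : (0 : ℝ) < p := by linarith
  have hun : ‖(u : ℚ_[p])‖ = 1 := by
    have h1 := Padic.norm_int_le_one (p := p) u
    rcases h1.lt_or_eq with h2 | h2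
    · exact absurd (Padic.norm_intCast_lt_one_iff.1 h2) hu'
    · exact h2
  set v := padicValInt p n with hv
  have hpn : ‖(p : ℚ_[p])‖ = (p : ℝ)⁻¹ := Padic.norm_p
  have hnn : ‖(n : ℚ_[p])‖ = (p : ℝ) ^ (-(v : ℤ)) := by
    rw [hu]
    push_cast
    rw [norm_mul, norm_pow, hun, mul_one, hpn, zpow_neg, zpow_natCast, inv_pow]
  have hzn := Padic.norm_eq_zpow_neg_valuation hz0
  have h3 : (p : ℝ) ^ (-(v : ℤ)) = (p : ℝ) ^ (-(2 * z.valuation)) := by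
    rw [← hnn, hz, norm_mul, hzn, ← zpow_add₀ hp0.ne']
    congr 1
    ring
  have h4 : -(v : ℤ) = -(2 * z.valuation) := zpow_right_injective₀ hp0 hp1.ne' h3
  obtain ⟨k, hk⟩ : ∃ k : ℕ, z.valuation = k := ⟨z.valuation.toNat, by omega⟩
  have h5 : v = 2 * k := by omega
  have hpk : (p : ℚ_[p]) ^ k ≠ 0 := pow_ne_zero _ (by exact_mod_cast hp.out.ne_zero)
  set w : ℚ_[p] := z / (p : ℚ_[p]) ^ k with hw
  have hw2 : w ^ 2 = u := by
    rw [hw, div_pow, div_eq_iff (pow_ne_zero 2 hpk), sq z, ← hz, hu, h5]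
    push_cast
    ring
  have hwn : ‖w‖ ≤ 1 := by
    have : ‖w‖ ^ 2 = 1 := by rw [← norm_pow, hw2, hun]
    nlinarith [norm_nonneg w]
  obtain ⟨m, hm⟩ := exists_close hwn (δ := (p : ℝ) ^ (-2 + 1 : ℤ)) (by positivity)
  refine ⟨k, u, m, by rw [← h5]; exact hu, hu', ?_⟩
  have hm2 : ‖w - m‖ ≤ (p : ℝ) ^ (-(2 : ℕ) : ℤ) :=
    (Padic.norm_le_pow_iff_norm_lt_pow_add_one (w - (m : ℚ_[p])) (-2 : ℤ)).2 hm
  have h6 : ‖((m ^ 2 - u : ℤ) : ℚ_[p])‖ ≤ (p : ℝ) ^ (-(2 : ℕ) : ℤ) := by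
    have e : ((m ^ 2 - u : ℤ) : ℚ_[p]) = -((w - m) * (w + m)) := by
      push_cast
      rw [← hw2]; ring
    rw [e, norm_neg, norm_mul]
    have h7 : ‖w + m‖ ≤ 1 := by
      refine (Padic.nonarchimedean _ _).trans ?_
      exact max_le hwn (Padic.norm_int_le_one m)
    calc ‖w - m‖ * ‖w + m‖ ≤ ‖w - m‖ * 1 := mul_le_mul_of_nonneg_left h7 (norm_nonneg _)
      _ = ‖w - m‖ := mul_one _
      _ ≤ _ := hm2
  exact (Padic.norm_int_le_pow_iff_dvd _ 2).1 h6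

theorem sq_val {n : ℤ} (hn : n ≠ 0) (h : IsSquare (n : ℚ_[p])) : Even (padicValInt p n) := by
  obtain ⟨k, u, m, hnu, hu, -⟩ := sq_dec hn h
  rw [hnu, val_of hu]
  exact even_two_mul k

theorem sq_ps {n : ℤ} (hn : n ≠ 0) (h : IsSquare (n : ℚ_[p])) : ps p n = 1 := by
  obtain ⟨k, u, m, hnu, hu, hm⟩ := sq_dec hn h
  rw [hnu, ps_of hu]
  have h1 : (p : ℤ) ∣ m ^ 2 - u := (dvd_pow_self _ two_ne_zero).trans hm
  have h2 : ¬ (p : ℤ) ∣ m := by
    intro h'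
    have := dvd_sub (Dvd.dvd.pow h' two_ne_zero : (p : ℤ) ∣ m ^ 2) h1
    rw [sub_sub_cancel] at this
    exact hu this
  rw [← jac_congr h1]
  exact jac_sq h2

theorem sq_of_jac (hp2 : p ≠ 2) {u : ℤ} (hu : ¬ (p : ℤ) ∣ u) (h : jacobiSym u p = 1) :
    IsSquare (u : ℚ_[p]) := by
  rw [← jacobiSym.legendreSym.to_jacobiSym] at h
  have hu0 : (u : ZMod p) ≠ 0 := by
    rwa [Ne, ZMod.intCast_zmod_eq_zero_iff_dvd]
  obtain ⟨m', hm'⟩ := (legendreSym.eq_one_iff p hu0).1 h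
  obtain ⟨m, rfl⟩ := ZMod.intCast_surjective m'
  have h1 : (p : ℤ) ∣ u - m ^ 2 := by
    rw [← ZMod.intCast_zmod_eq_zero_iff_dvd]
    push_cast
    rw [hm']; ring
  have hm : ¬ (p : ℤ) ∣ m := by
    intro h'
    have := dvd_add h1 (Dvd.dvd.pow h' two_ne_zero : (p : ℤ) ∣ m ^ 2)
    rw [sub_add_cancel] at this
    exact hu this
  have hmn : ‖(m : ℚ_[p])‖ = 1 := by
    rcases (Padic.norm_int_le_one (p := p) m).lt_or_eq with h2 | h2
    · exact absurd (Padic.norm_intCast_lt_one_iff.1 h2) hm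
    · exact h2
  have hm0 : (m : ℚ_[p]) ≠ 0 := by
    intro h0
    rw [h0, norm_zero] at hmn
    exact zero_ne_one hmn
  have h4 : ‖(4 : ℚ_[p])‖ = 1 := by
    have h5 : ¬ (p : ℤ) ∣ 4 := by
      intro h'
      have h6 : (p : ℤ) ∣ 2 ^ 2 := by norm_num; exact h'
      have h7 := pI.dvd_of_dvd_pow h6
      exact hp2 ((Nat.prime_dvd_prime_iff_eq hp.out Nat.prime_two).1 (by exact_mod_cast h7))
    have h8 : ‖((4 : ℤ) : ℚ_[p])‖ = 1 := by
      rcases (Padic.norm_int_le_one (p := p) 4).lt_or_eq with h2 | h2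
      · exact absurd (Padic.norm_intCast_lt_one_iff.1 h2) h5
      · exact h2
    exact_mod_cast h8
  have h9 : ‖((u - m ^ 2 : ℤ) : ℚ_[p]) / m ^ 2‖ < ‖(4 : ℚ_[p])‖ := by
    rw [h4, norm_div, norm_pow, hmn, one_pow, div_one]
    exact Padic.norm_intCast_lt_one_iff.2 h1
  have h10 := hens h9
  have e : (u : ℚ_[p]) = (m : ℚ_[p]) ^ 2 * (1 + ((u - m ^ 2 : ℤ) : ℚ_[p]) / m ^ 2) := by
    push_cast
    field_simp
    ring
  rw [e]
  exact (IsSquare.sq _).mul h10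

/-- approximation -/
theorem appr (D : ℤ) {x y : ℚ_[p]} (hy : y ≠ 0)
    (h : y ^ 2 = x * (x + 16 * D) * (x + 25 * D)) :
    ∃ r t : ℤ, IsCoprime r t ∧ r ≠ 0 ∧ r + 16 * D * t ^ 2 ≠ 0 ∧ r + 25 * D * t ^ 2 ≠ 0 ∧
      (∀ n : ℤ, IsSquare (x * n) → IsSquare ((r * n : ℤ) : ℚ_[p])) ∧
      (∀ n : ℤ, IsSquare ((x + 16 * D) * n) →
        IsSquare (((r + 16 * D * t ^ 2) * n : ℤ) : ℚ_[p])) ∧
      IsSquare ((r * (r + 16 * D * t ^ 2) * (r + 25 * D * t ^ 2) : ℤ) : ℚ_[p]) := by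
  have hprod : x * (x + 16 * D) * (x + 25 * D) ≠ 0 := by
    rw [← h]; exact pow_ne_zero 2 hy
  have nC := right_ne_zero_of_mul hprod
  have nB := right_ne_zero_of_mul (left_ne_zero_of_mul hprod)
  have nA := left_ne_zero_of_mul (left_ne_zero_of_mul hprod)
  have hp1 : (1 : ℝ) < p := by exact_mod_cast hp.out.one_lt
  have hp0 : (0 : ℝ) < p := by linarith
  set δ : ℝ := min (min ‖x‖ ‖x + 16 * D‖) ‖x + 25 * D‖ * ‖(4 : ℚ_[p])‖ with hδ
  have hδ0 : 0 < δ := mul_pos (lt_min (lt_min (norm_pos_iff.2 nA) (norm_pos_iff.2 nB))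
    (norm_pos_iff.2 nC)) norm_four_pos
  have hδA : δ ≤ ‖x‖ * ‖(4 : ℚ_[p])‖ := mul_le_mul_of_nonneg_right
    ((min_le_left _ _).trans (min_le_left _ _)) (norm_nonneg _)
  have hδB : δ ≤ ‖x + 16 * D‖ * ‖(4 : ℚ_[p])‖ := mul_le_mul_of_nonneg_right
    ((min_le_left _ _).trans (min_le_right _ _)) (norm_nonneg _)
  have hδC : δ ≤ ‖x + 25 * D‖ * ‖(4 : ℚ_[p])‖ := mul_le_mul_of_nonneg_right
    (min_le_right _ _) (norm_nonneg _)
  -- the rational approximation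
  obtain ⟨r, t, hrt, ht0, hclose⟩ : ∃ r t : ℤ, IsCoprime r t ∧ (t : ℚ_[p]) ≠ 0 ∧
      ‖(r : ℚ_[p]) / t ^ 2 - x‖ < δ := by
    by_cases hx : ‖x‖ ≤ 1
    · obtain ⟨r, hr⟩ := exists_close hx hδ0
      refine ⟨r, 1, isCoprime_one_right, by simp, ?_⟩
      rw [← norm_neg]
      have : -((r : ℚ_[p]) / ((1 : ℤ) : ℚ_[p]) ^ 2 - x) = x - r := by push_cast; ring
      rw [this]
      exact hr
    · push Not at hx
      have hnz : ∀ c : ℤ, ‖x + (c : ℚ_[p])‖ = ‖x‖ := by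
        intro c
        have hc : ‖(c : ℚ_[p])‖ < ‖x‖ := (Padic.norm_int_le_one c).trans_lt hx
        rw [Padic.add_eq_max_of_ne hc.ne']
        exact max_eq_left hc.le
      have hy2 : ‖y‖ ^ 2 = ‖x‖ ^ 3 := by
        have e1 := hnz (16 * D)
        have e2 := hnz (25 * D)
        push_cast at e1 e2
        rw [← norm_pow, h, norm_mul, norm_mul, e1, e2]
        ring
      have hxv := Padic.norm_eq_zpow_neg_valuation nA
      have hyv := Padic.norm_eq_zpow_neg_valuation hy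
      have hval : -y.valuation * 2 = -x.valuation * 3 := by
        rw [hxv, hyv, ← zpow_natCast, ← zpow_natCast, ← zpow_mul, ← zpow_mul] at hy2
        exact zpow_right_injective₀ hp0 hp1.ne' hy2
      have hxpos : 0 < -x.valuation := by
        by_contra hcon
        push Not at hcon
        rw [hxv] at hx
        have := zpow_le_one_of_nonpos₀ hp1.le hcon
        linarith
      obtain ⟨j, hj⟩ : ∃ j : ℕ, -x.valuation = 2 * j := ⟨(-x.valuation / 2).toNat, by omega⟩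
      have hpz : (p : ℚ_[p]) ≠ 0 := by exact_mod_cast hp.out.ne_zero
      have hpn : ‖(p : ℚ_[p])‖ = (p : ℝ)⁻¹ := Padic.norm_p
      set z : ℚ_[p] := x * ((p : ℚ_[p]) ^ j) ^ 2 with hz
      have hzn : ‖z‖ = 1 := by
        rw [hz, norm_mul, norm_pow, norm_pow, hpn, hxv, hj, ← pow_mul, inv_pow, zpow_mul,
          zpow_ofNat, zpow_natCast, ← pow_mul, mul_comm j 2]
        exact mul_inv_cancel₀ (pow_ne_zero _ hp0.ne')
      have hpj : 0 < ‖((p : ℚ_[p]) ^ j) ^ 2‖ := norm_pos_iff.2 (pow_ne_zero _ (pow_ne_zero _ hpz))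
      obtain ⟨r, hr⟩ := exists_close hzn.le (δ := min 1 (δ * ‖((p : ℚ_[p]) ^ j) ^ 2‖))
        (lt_min one_pos (mul_pos hδ0 hpj))
      have hr1 : ‖z - r‖ < 1 := hr.trans_le (min_le_left _ _)
      have hr2 : ‖z - r‖ < δ * ‖((p : ℚ_[p]) ^ j) ^ 2‖ := hr.trans_le (min_le_right _ _)
      have hrn : ¬ (p : ℤ) ∣ r := by
        intro h'
        have h1 := Padic.norm_intCast_lt_one_iff.2 h'
        have h2 : ‖z‖ < 1 := by
          have e : z = (z - r) + r := by ring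
          rw [e]
          exact (Padic.nonarchimedean _ _).trans_lt (max_lt hr1 h1)
        rw [hzn] at h2
        exact lt_irrefl _ h2
      refine ⟨r, (p : ℤ) ^ j, ?_, by push_cast; exact pow_ne_zero _ hpz, ?_⟩
      · exact IsCoprime.pow_right ((Prime.coprime_iff_not_dvd pI).2 hrn).symm
      · have e : (r : ℚ_[p]) / (((p : ℤ) ^ j : ℤ) : ℚ_[p]) ^ 2 - x =
            -((z - r) / ((p : ℚ_[p]) ^ j) ^ 2) := by
          rw [hz]
          push_cast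
          field_simp
          ring
        rw [e, norm_neg, norm_div, div_lt_iff₀ hpj]
        exact hr2
  -- each of the three factors
  have key : ∀ c : ℤ, x + c ≠ 0 → δ ≤ ‖x + c‖ * ‖(4 : ℚ_[p])‖ →
      r + c * t ^ 2 ≠ 0 ∧ ∃ q : ℚ_[p], ((r + c * t ^ 2 : ℤ) : ℚ_[p]) = (x + c) * q ^ 2 := by
    intro c hc hδc
    have hn : ‖((r : ℚ_[p]) / t ^ 2 - x) / (x + c)‖ < ‖(4 : ℚ_[p])‖ := by
      rw [norm_div, div_lt_iff₀ (norm_pos_iff.2 hc), mul_comm]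
      exact hclose.trans_le hδc
    obtain ⟨q, hq⟩ := hens hn
    have e : ((r + c * t ^ 2 : ℤ) : ℚ_[p]) = (x + c) * (q * t) ^ 2 := by
      have h1 : (q * t) ^ 2 = (q * q) * (t : ℚ_[p]) ^ 2 := by ring
      rw [h1, ← hq]
      push_cast
      field_simp
      ring
    refine ⟨?_, q * t, e⟩
    intro h0
    rw [h0, Int.cast_zero] at e
    have hq0 : q ≠ 0 := by
      rintro rfl
      rw [mul_zero] at hq
      have : ((r : ℚ_[p]) / t ^ 2 - x) / (x + c) = -1 := by linear_combination hq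
      rw [this, norm_neg, norm_one] at hn
      exact absurd norm_four_le (not_le.2 hn)
    exact (mul_ne_zero hc (pow_ne_zero 2 (mul_ne_zero hq0 ht0))) e.symm
  obtain ⟨k1, q1, e1⟩ := key 0 (by push_cast; rw [add_zero]; exact nA) (by
    push_cast; rw [add_zero]; exact hδA)
  obtain ⟨k2, q2, e2⟩ := key (16 * D) (by push_cast; exact nB) (by push_cast; exact hδB)
  obtain ⟨k3, q3, e3⟩ := key (25 * D) (by push_cast; exact nC) (by push_cast; exact hδC)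
  rw [zero_mul, add_zero] at k1 e1
  rw [Int.cast_zero, add_zero] at e1
  push_cast at e2 e3
  refine ⟨r, t, hrt, k1, k2, k3, ?_, ?_, ?_⟩
  · rintro n ⟨w, hw⟩
    refine ⟨w * q1, ?_⟩
    rw [Int.cast_mul, e1]
    linear_combination q1 ^ 2 * hw
  · rintro n ⟨w, hw⟩
    refine ⟨w * q2, ?_⟩
    push_cast
    rw [e2]
    linear_combination q2 ^ 2 * hw
  · refine ⟨y * (q1 * q2 * q3), ?_⟩
    push_cast
    rw [e2, e3, e1]
    linear_combination -(q1 * q2 * q3) ^ 2 * h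

end pad

theorem sq_p2 {n : ℤ} (hn : n ≠ 0) (h : IsSquare (n : ℚ_[2])) : p2 n = 1 := by
  obtain ⟨k, u, m, hnu, hu, hm⟩ := sq_dec hn h
  have hu' : ¬ (2 : ℤ) ∣ u := by exact_mod_cast hu
  have e : n = (2 : ℤ) ^ (2 * k) * u := by exact_mod_cast hnu
  rw [e, p2_of hu']
  have h4 : (4 : ℤ) ∣ m ^ 2 - u := by
    have : ((2 : ℕ) : ℤ) ^ 2 = 4 := by norm_num
    rwa [this] at hm
  have h5 : u % 4 = 1 := by
    have h6 : m % 4 = 0 ∨ m % 4 = 1 ∨ m % 4 = 2 ∨ m % 4 = 3 := by omega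
    have h7 : m ^ 2 % 4 = 0 ∨ m ^ 2 % 4 = 1 := by
      rw [sq, Int.mul_emod]
      rcases h6 with h | h | h | h <;> rw [h] <;> norm_num
    omega
  exact ZMod.χ₄_int_one_mod_four h5

theorem sq_of_mod8 {u : ℤ} (hu : u % 8 = 1) : IsSquare (u : ℚ_[2]) := by
  have h1 : ((2 : ℕ) : ℤ) ^ 3 ∣ u - 1 := by
    have : ((2 : ℕ) : ℤ) ^ 3 = 8 := by norm_num
    rw [this]; omega
  have h2 := (Padic.norm_int_le_pow_iff_dvd (p := 2) (u - 1) 3).2 h1
  have h4 : ‖(4 : ℚ_[2])‖ = (2 : ℝ) ^ (-2 : ℤ) := by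
    have h5 : ‖(2 : ℚ_[2])‖ = (2 : ℝ)⁻¹ := by
      have := Padic.norm_p (p := 2)
      exact_mod_cast this
    rw [norm_four, h5, zpow_neg, inv_pow]
    norm_num
  have h3 : ‖((u - 1 : ℤ) : ℚ_[2])‖ < ‖(4 : ℚ_[2])‖ := by
    refine h2.trans_lt ?_
    rw [h4]
    norm_num
  have h6 := hens h3
  have : (u : ℚ_[2]) = 1 + ((u - 1 : ℤ) : ℚ_[2]) := by push_cast; ring
  rw [this]
  exact h6

end Pool.Agent.H468.X15
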