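import Pool.Agent.H468.X15S.Sel

/-!
# The Tate-Shafarevich groups of the twists of `X_0(15)` satisfying the criterion have no
elements of order two
-/

set_option autoImplicit false
set_option linter.all false

open scoped Classical

namespace Pool.Agent.H468.X15

open WeierstrassCurve
open Pool.Agent.TH841.SH
open Pool.Agent.W262.SH (QB Pt act LocTriv Sha)
open Pool.Agent.H757_X15.DD (Fm Crit)

/-- the value of `gf` at a fixed point is rational -/
theorem gf_rat {W : WeierstrassCurve ℚ} {a b c : ℚ} {R : Pt W QB}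
    (hR : ∀ σ : QB ≃ₐ[ℚ] QB, act W σ.toAlgHom R = R) : ∃ q : ℚ, algebraMap ℚ QB q =
      gf (W.baseChange QB) (algebraMap ℚ QB a) (algebraMap ℚ QB b) (algebraMap ℚ QB c) R := by
  refine fix_mem _ fun σ => ?_
  have h1 := act_gf (W := W) (a := a) (b := b) (c := c) σ.toAlgHom R
  rw [hR σ] at h1
  exact h1

theorem sq_D {D : ℕ} (hD : Squarefree D) {l q : ℚ} (hl : l ≠ 0) {k : ℚ} (hk : k ≠ 0)
    (h : k ^ 2 * D * l ^ 2 = q ^ 2) : D = 1 := by
  have h1 : IsSquare ((D : ℕ) : ℚ) := by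
    refine ⟨q / (k * l), ?_⟩
    rw [← sq, div_pow, ← h, mul_pow]
    field_simp
  rw [Rat.isSquare_natCast_iff] at h1
  obtain ⟨w, hw⟩ := h1
  have h2 := hD w ⟨1, by rw [mul_one]; exact hw⟩
  rw [Nat.isUnit_iff] at h2
  rw [hw, h2]

/-- the double of a rational point is not a point of order two -/
theorem no_four {W : WeierstrassCurve ℚ} {D : ℕ} {a b c l : ℚ} (m : Mod W D a b c l)
    (hD : Squarefree D) (h1 : D ≠ 1) {R : Pt W QB}
    (hR : ∀ σ : QB ≃ₐ[ℚ] QB, act W σ.toAlgHom R = R) (h4 : (R + R) + (R + R) = 0) :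
    R + R = 0 := by
  have hinj : Function.Injective (algebraMap ℚ QB) := (algebraMap ℚ QB).injective
  by_contra hcon
  have hb := m.r.base QB
  have gfa := gf_rat (a := a) (b := b) (c := c) hR
  have gfc := gf_rat (a := c) (b := a) (c := b) hR
  have hD0 : 0 < (D : ℚ) := by
    have : 0 < D := Nat.pos_of_ne_zero hD.ne_zero
    exact_mod_cast this
  have hl2 : 0 < l ^ 2 := by
    have := m.l0
    positivity
  rcases R with _ | ⟨u, v, hn⟩
  · exact hcon (add_zero 0)
  have hv : v ≠ 0 := fun hv => hcon ((hb.add_self two_ne_zero hn).2 hv)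
  obtain ⟨X, Y, hn', e1, hXa⟩ := hb.dup two_ne_zero hn hv
  obtain ⟨X', Y', hn'', e1', hXc⟩ := hb.rot.rot.dup two_ne_zero hn hv
  rw [e1, Affine.Point.some.injEq] at e1'
  obtain ⟨rfl, rfl⟩ := e1'
  obtain ⟨qa, hqa⟩ := gfa
  obtain ⟨qc, hqc⟩ := gfc
  have ha : X - algebraMap ℚ QB a = algebraMap ℚ QB (qa ^ 2) := by
    rw [map_pow, hqa]; exact hXa
  have hc : X - algebraMap ℚ QB c = algebraMap ℚ QB (qc ^ 2) := by
    rw [map_pow, hqc]; exact hXc
  rw [e1] at h4
  rcases hb.tors two_ne_zero h4 with h | ⟨hn3, h⟩ | ⟨hn3, h⟩ | ⟨hn3, h⟩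
  · exact Affine.Point.some_ne_zero _ h
  · rw [Affine.Point.some.injEq] at h
    rw [h.1, ← map_sub] at hc
    have h5 := hinj hc
    apply h1
    refine sq_D hD m.l0 (k := 5) (by norm_num) (q := qc) ?_
    rw [← h5, m.hc]; push_cast; ring
  · rw [Affine.Point.some.injEq] at h
    rw [h.1, ← map_sub] at ha
    have h5 := hinj ha
    rw [m.hb] at h5
    push_cast at h5
    nlinarith [sq_nonneg qa, mul_pos hD0 hl2]
  · rw [Affine.Point.some.injEq] at h
    rw [h.1, ← map_sub] at ha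
    have h5 := hinj ha
    rw [m.hc] at h5
    push_cast at h5
    nlinarith [sq_nonneg qa, mul_pos hD0 hl2]

/-- four points of order two -/
theorem four_tor {W : WeierstrassCurve ℚ} {D : ℤ} {a b c l : ℚ} (m : Mod W D a b c l) :
    ∃ g : Fin 4 → Pt W QB, Function.Injective g ∧ ∀ i, g i + g i = 0 := by
  have hinj : Function.Injective (algebraMap ℚ QB) := (algebraMap ℚ QB).injective
  have hb := m.r.base QB
  have na := hb.nons two_ne_zero (hinj.ne m.ab) (hinj.ne m.ac) (hinj.ne m.bc)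
    (x := algebraMap ℚ QB a) (y := 0) (by ring)
  have nb := hb.nons two_ne_zero (hinj.ne m.ab) (hinj.ne m.ac) (hinj.ne m.bc)
    (x := algebraMap ℚ QB b) (y := 0) (by ring)
  have nc := hb.nons two_ne_zero (hinj.ne m.ab) (hinj.ne m.ac) (hinj.ne m.bc)
    (x := algebraMap ℚ QB c) (y := 0) (by ring)
  have kab := hinj.ne m.ab
  have kac := hinj.ne m.ac
  have kbc := hinj.ne m.bc
  refine ⟨![0, .some _ _ na, .some _ _ nb, .some _ _ nc], ?_, ?_⟩
  · have key : ∀ i j : Fin 4, i < j →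
        (![0, .some _ _ na, .some _ _ nb, .some _ _ nc] : Fin 4 → Pt W QB) i ≠
        (![0, .some _ _ na, .some _ _ nb, .some _ _ nc] : Fin 4 → Pt W QB) j := by
      intro i j hij
      fin_cases i <;> fin_cases j <;>
        first
        | exact absurd hij (by decide)
        | exact (Affine.Point.some_ne_zero _).symm
        | (intro h; exact kab (Affine.Point.some.inj h).1)
        | (intro h; exact kac (Affine.Point.some.inj h).1)
        | (intro h; exact kbc (Affine.Point.some.inj h).1)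
    intro i j h
    rcases lt_trichotomy i j with h' | h' | h'
    · exact absurd h (key i j h')
    · exact h'
    · exact absurd h.symm (key j i h')
  · intro i
    fin_cases i
    · exact add_zero 0
    · exact (hb.add_self two_ne_zero na).2 rfl
    · exact (hb.add_self two_ne_zero nb).2 rfl
    · exact (hb.add_self two_ne_zero nc).2 rfl

/-- **No elements of order two in the Tate-Shafarevich group.** -/
theorem sha_two {W : WeierstrassCurve ℚ} {D : ℕ} {a b c l : ℚ} (m : Mod W D a b c l)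
    (hD : Squarefree D) (hF : Fm D) (hC : Crit D) (h1 : D ≠ 1) :
    ∀ x : Sha W, x + x = 0 → x = 0 := by
  have hinj : Function.Injective (algebraMap ℚ QB) := (algebraMap ℚ QB).injective
  have hb := m.r.base QB
  have kab := hinj.ne m.ab
  have kac := hinj.ne m.ac
  have kbc := hinj.ne m.bc
  -- the upper bound
  have hch : ∀ f : selHom W, ∃ v : ℤ × ℤ, Squarefree v.1 ∧ Squarefree v.2 ∧
      (∀ s : QB, s ^ 2 = v.1 → ∀ σ : QB ≃ₐ[ℚ] QB,
        σ s = s ↔ IsX (W.baseChange QB) (algebraMap ℚ QB a) (f.1 σ)) ∧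
      (∀ s : QB, s ^ 2 = v.2 → ∀ σ : QB ≃ₐ[ℚ] QB,
        σ s = s ↔ IsX (W.baseChange QB) (algebraMap ℚ QB b) (f.1 σ)) := by
    intro f
    obtain ⟨e, h2, h3⟩ := exists_char m.r m.ab m.ac m.bc f.2
    obtain ⟨e', h2', h3'⟩ := exists_char m.r.swap m.ab.symm m.bc m.ac f.2
    exact ⟨(e, e'), h2, h2', h3, h3'⟩
  choose φ hφ using hch
  have hφinj : Function.Injective φ := by
    intro f g hfg
    apply Subtype.ext
    funext σ
    obtain ⟨-, -, k1, k2⟩ := hφ f
    obtain ⟨-, -, k3, k4⟩ := hφ g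
    rw [← hfg] at k3 k4
    obtain ⟨s, hs⟩ := IsAlgClosed.exists_pow_nat_eq ((φ f).1 : QB) (n := 2) (by norm_num)
    obtain ⟨s', hs'⟩ := IsAlgClosed.exists_pow_nat_eq ((φ f).2 : QB) (n := 2) (by norm_num)
    exact hb.ext two_ne_zero kab kac kbc (f.2.2.1 σ) (g.2.2.1 σ)
      ((k1 s hs σ).symm.trans (k3 s hs σ)) ((k2 s' hs' σ).symm.trans (k4 s' hs' σ))
  set S4 : Finset (ℤ × ℤ) := {(1, 1), (1, (D : ℤ)), (-(D : ℤ), -1), (-(D : ℤ), -(D : ℤ))} with hS4
  have hmem : ∀ f : selHom W, φ f ∈ S4 := by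
    intro f
    obtain ⟨k0, k0', k1, k2⟩ := hφ f
    have h5 := sel_class m hD hF hC h1 f.2 k0 k0' k1 k2
    rw [hS4]
    simp only [Finset.mem_insert, Finset.mem_singleton]
    rcases h5 with ⟨q1, q2⟩ | ⟨q1, q2⟩ | ⟨q1, q2⟩ | ⟨q1, q2⟩
    · exact Or.inl (Prod.ext q1 q2)
    · exact Or.inr (Or.inl (Prod.ext q1 q2))
    · exact Or.inr (Or.inr (Or.inl (Prod.ext q1 q2)))
    · exact Or.inr (Or.inr (Or.inr (Prod.ext q1 q2)))
  let ψ : selHom W → S4 := fun f => ⟨φ f, hmem f⟩
  have hψ : Function.Injective ψ := fun f g h => hφinj (congrArg Subtype.val h)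
  haveI hfin : Finite (selHom W) := Finite.of_injective ψ hψ
  have hcard : Nat.card (selHom W) ≤ 4 := by
    have h5 := Nat.card_le_card_of_injective ψ hψ
    have h6 : Nat.card S4 ≤ 4 := by
      rw [Nat.card_eq_fintype_card, Fintype.card_coe]
      exact Finset.card_le_four
    exact h5.trans h6
  -- the lower bound
  obtain ⟨g, hg, hg2⟩ := four_tor m
  have hdiv : ∀ i, ∃ Q : Pt W QB, g i = Q + Q := fun i => hb.div two_ne_zero kab kac kbc (g i)
  choose Q hQ using hdiv
  have hsel : ∀ i, (fun σ : QB ≃ₐ[ℚ] QB => act W σ.toAlgHom (Q i) - Q i) ∈ selHom W := by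
    intro i
    apply cob_sel m.r
    intro σ
    have e3 : act W σ.toAlgHom (Q i) - Q i + (act W σ.toAlgHom (Q i) - Q i) =
      (act W σ.toAlgHom (Q i) + act W σ.toAlgHom (Q i)) - (Q i + Q i) := by abel
    rw [e3, ← map_add, ← hQ i, tors_fix m.r (hg2 i), sub_self]
  have hker : ∀ i, (⟨_, hsel i⟩ : selHom W) ∈ (toSha m.r).ker := by
    intro i
    rw [toSha_ker]
    exact ⟨Q i, fun σ => rfl⟩
  let θ : Fin 4 → (toSha m.r).ker := fun i => ⟨⟨_, hsel i⟩, hker i⟩
  have hθ : Function.Injective θ := by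
    intro i j hij
    have h5 : ∀ σ : QB ≃ₐ[ℚ] QB, act W σ.toAlgHom (Q i) - Q i = act W σ.toAlgHom (Q j) - Q j :=
      fun σ => congrFun (congrArg (fun z : (toSha m.r).ker => z.1.1) hij) σ
    have h6 : ∀ σ : QB ≃ₐ[ℚ] QB, act W σ.toAlgHom (Q i - Q j) = Q i - Q j := by
      intro σ
      rw [map_sub]
      have h7 : act W σ.toAlgHom (Q i) = act W σ.toAlgHom (Q j) - Q j + Q i := by
        rw [← h5 σ]; abel
      rw [h7]; abel
    have h8 : (Q i - Q j) + (Q i - Q j) = g i - g j := by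
      rw [hQ i, hQ j]; abel
    have h9 := no_four m hD h1 h6 (by
      rw [h8]
      have : g i - g j + (g i - g j) = (g i + g i) - (g j + g j) := by abel
      rw [this, hg2, hg2, sub_zero])
    rw [h8] at h9
    exact hg (sub_eq_zero.1 h9)
  have hcard2 : 4 ≤ Nat.card (toSha m.r).ker := by
    have := Nat.card_le_card_of_injective θ hθ
    simpa using this
  have htop : (toSha m.r).ker = ⊤ := AddSubgroup.eq_top_of_le_card _ (hcard.trans hcard2)
  intro x hx
  obtain ⟨f, rfl⟩ := (toSha_range m.r m.ab m.ac m.bc x).2 hx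
  have : f ∈ (toSha m.r).ker := by rw [htop]; trivial
  exact (AddMonoidHom.mem_ker).1 this

end Pool.Agent.H468.X15
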