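import Pool.Agent.H468.X15S.Conv
import Pool.Agent.H468.X15.Main
import Pool.Graph.R_seed8.TH841.SH.Tr

/-!
# The Selmer criterion for the short equations of the twists of `X_0(15)`
-/

set_option autoImplicit false
set_option linter.all false

open scoped Classical

namespace Pool.Agent.H468.X15

open WeierstrassCurve
open Pool.Agent.H757_X15.DD (Fm Crit)

theorem mod_short {D : ℕ} (hD : D ≠ 0) (A B : ℤ) (hA : A = -12987 * (D : ℤ) ^ 2)
    (hB : B = -263466 * (D : ℤ) ^ 3) :
    Mod ⟨0, 0, 0, (A : ℚ), (B : ℚ)⟩ D (123 * D) (-21 * D) (-102 * D) 3 where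
  r := by
    subst hA hB
    refine ⟨rfl, ?_, rfl, ?_, ?_⟩
    · show (0 : ℚ) = _
      ring
    · show (((-12987 * (D : ℤ) ^ 2 : ℤ)) : ℚ) = _
      push_cast; ring
    · show (((-263466 * (D : ℤ) ^ 3 : ℤ)) : ℚ) = _
      push_cast; ring
  l0 := by norm_num
  d0 := by exact_mod_cast hD
  hb := by push_cast; ring
  hc := by push_cast; ring

/-- the Selmer criterion, in terms of the self-contained definition of the Tate-Shafarevich group -/
theorem sha_iff_crit {W : WeierstrassCurve ℚ} {D : ℕ} {a b c l : ℚ} (m : Mod W D a b c l)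
    (hD : Squarefree D) (hF : Fm D) (h1 : D ≠ 1)
    (hfin : Crit D → Finite W.toAffine.Point) :
    (Finite W.toAffine.Point ∧ ∀ x : Pool.Agent.TH841.SH.D.Sha W, x + x = 0 → x = 0) ↔ Crit D := by
  have tr : (∀ x : Pool.Agent.TH841.SH.D.Sha W, x + x = 0 → x = 0) ↔
      ∀ x : Pool.Agent.W262.SH.Sha W, x + x = 0 → x = 0 := by
    let e := Pool.Agent.TH841.SH.D.eSha W
    constructor
    · intro h x hx
      have h2 := h (e.symm x) (by rw [← map_add, hx, map_zero])
      have h3 := congrArg e h2
      rwa [AddEquiv.apply_symm_apply, map_zero] at h3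
    · intro h x hx
      have h2 := h (e x) (by rw [← map_add, hx, map_zero])
      have h3 := congrArg e.symm h2
      rwa [AddEquiv.symm_apply_apply, map_zero] at h3
  rw [tr]
  exact ⟨fun h => crit_of_sha m hD hF h1 h.1 h.2, fun h => ⟨hfin h, sha_two m hD hF h h1⟩⟩

end Pool.Agent.H468.X15
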