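import Pool.Agent.H468.X15S.Cob2

/-!
# If the group of rational points is finite and the Tate-Shafarevich group has no elements of order
two, then the criterion holds
-/

set_option autoImplicit false
set_option linter.all false

open scoped Classical

namespace Pool.Agent.H468.X15

open WeierstrassCurve
open Pool.Agent.TH841.SH
open Pool.Agent.W262.SH (QB Pt act LocTriv Sha)
open Pool.Agent.H757_X15.DD (Fm Crit)

theorem fd_norm {W : WeierstrassCurve ℚ} {D : ℤ} {a b c l : ℚ} (m : Mod W D a b c l)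
    {d : ℤ} (hd : d ≠ 0) {s : QB} (hs : s ^ 2 = d)
    (nc : (W.baseChange QB).toAffine.Nonsingular (algebraMap ℚ QB c) 0)
    {K : Type} [Field K] [Algebra ℚ K] (h2K : (2 : K) ≠ 0)
    {x α β z : K} (hα : α ≠ 0) (hβ : β ≠ 0) (h1 : x * d = α ^ 2)
    (h2 : (x + 16 * D) * d = β ^ 2) (h3 : x + 25 * D = z ^ 2) :
    LocTriv W K (fd s (.some _ _ nc)) := by
  set L : K := algebraMap ℚ K l with hL
  have hL0 : L ≠ 0 := by rw [hL, Ne, map_eq_zero]; exact m.l0
  have eb : algebraMap ℚ K b = algebraMap ℚ K a - 16 * D * L ^ 2 := by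
    rw [m.hb, map_sub, map_mul, map_mul, map_pow, map_intCast, map_ofNat]
  have ec : algebraMap ℚ K c = algebraMap ℚ K a - 25 * D * L ^ 2 := by
    rw [m.hc, map_sub, map_mul, map_mul, map_pow, map_intCast, map_ofNat]
  refine fd_pt m.r m.ab m.ac m.bc hd hs nc h2K (x := algebraMap ℚ K a + L ^ 2 * x) (α := L * α)
    (β := L * β) (z := L * z) (mul_ne_zero hL0 hα) (mul_ne_zero hL0 hβ) ?_ ?_ ?_
  · rw [mul_pow, ← h1]; ring
  · rw [mul_pow, ← h2, eb]; ring
  · rw [mul_pow, ← h3, ec]; ring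

theorem nd_of_jac {p : ℕ} [hp : Fact p.Prime] {u : ℤ} (h : jacobiSym u p = 1) : ¬ (p : ℤ) ∣ u := by
  intro h'
  have h1 : jacobiSym u p = 0 := by
    rw [← jacobiSym.legendreSym.to_jacobiSym, legendreSym.eq_zero_iff,
      ZMod.intCast_zmod_eq_zero_iff_dvd]
    exact h'
  rw [h1] at h
  exact zero_ne_one h

/-- the place at two -/
theorem at_two {d D' : ℤ} (h4 : d * D' % 4 = 1) :
    IsSquare (d : ℚ_[2]) ∨ IsSquare ((-D' : ℤ) : ℚ_[2]) ∨ ∃ x α β z : ℚ_[2], α ≠ 0 ∧ β ≠ 0 ∧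
      x * d = α ^ 2 ∧ (x + 16 * ((d * D' : ℤ) : ℚ_[2])) * d = β ^ 2 ∧
      x + 25 * ((d * D' : ℤ) : ℚ_[2]) = z ^ 2 := by
  have hd : d % 8 = 0 ∨ d % 8 = 1 ∨ d % 8 = 2 ∨ d % 8 = 3 ∨ d % 8 = 4 ∨ d % 8 = 5 ∨ d % 8 = 6 ∨
    d % 8 = 7 := by omega
  have hD' : D' % 8 = 0 ∨ D' % 8 = 1 ∨ D' % 8 = 2 ∨ D' % 8 = 3 ∨ D' % 8 = 4 ∨ D' % 8 = 5 ∨
    D' % 8 = 6 ∨ D' % 8 = 7 := by omega
  have h8 : (d % 4) * (D' % 4) % 4 = 1 := by rw [← Int.mul_emod]; exact h4
  have hd4 : d % 8 = 1 ∨ (d % 8 = 5 ∧ D' % 2 = 1) ∨ D' % 8 = 7 ∨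
      ((d % 8 = 3 ∨ d % 8 = 7) ∧ D' % 8 = 3) := by
    have e1 : d % 4 = 0 ∨ d % 4 = 1 ∨ d % 4 = 2 ∨ d % 4 = 3 := by omega
    have e2 : D' % 4 = 0 ∨ D' % 4 = 1 ∨ D' % 4 = 2 ∨ D' % 4 = 3 := by omega
    rcases e1 with e1 | e1 | e1 | e1 <;> rcases e2 with e2 | e2 | e2 | e2 <;>
      rw [e1, e2] at h8 <;> omega
  have hd0 : (d : ℚ_[2]) ≠ 0 := by
    have : d ≠ 0 := by rintro rfl; omega
    exact_mod_cast this
  rcases hd4 with h | ⟨h, h'⟩ | h | ⟨h, h'⟩
  · exact Or.inl (sq_of_mod8 h)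
  · right; right
    obtain ⟨w, hw⟩ := sq_of_mod8 (u := 1 + 64 * D') (by omega)
    have hk : d * (1 + 100 * D') % 8 = 1 := by
      have e : (1 + 100 * D') % 8 = 5 := by omega
      rw [Int.mul_emod, h, e]; norm_num
    obtain ⟨v, hv⟩ := sq_of_mod8 hk
    have hw0 : w ≠ 0 := by
      rintro rfl
      rw [mul_zero] at hw
      have : (1 + 64 * D' : ℤ) = 0 := by exact_mod_cast hw
      omega
    refine ⟨d / 4, d / 2, (d / 2) * w, v / 2, div_ne_zero hd0 two_ne_zero,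
      mul_ne_zero (div_ne_zero hd0 two_ne_zero) hw0, by ring, ?_, ?_⟩
    · rw [mul_pow, sq w, ← hw]; push_cast; ring
    · rw [div_pow, sq v, ← hv]; push_cast; ring
  · right; left
    exact sq_of_mod8 (by omega)
  · right; right
    obtain ⟨u, hu, hu2⟩ : ∃ u : ℤ, (u = 1 ∨ u = 3 ∨ u = 5 ∨ u = 7) ∧
        (u ^ 2 + 25 * D') % 32 = 4 * (d % 8) := by
      have e1 : D' % 32 = 3 ∨ D' % 32 = 11 ∨ D' % 32 = 19 ∨ D' % 32 = 27 := by omega
      rcases e1 with e1 | e1 | e1 | e1 <;> rcases h with h | h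
      · exact ⟨1, by norm_num, by rw [h]; norm_num; omega⟩
      · exact ⟨7, by norm_num, by rw [h]; norm_num; omega⟩
      · exact ⟨5, by norm_num, by rw [h]; norm_num; omega⟩
      · exact ⟨3, by norm_num, by rw [h]; norm_num; omega⟩
      · exact ⟨7, by norm_num, by rw [h]; norm_num; omega⟩
      · exact ⟨1, by norm_num, by rw [h]; norm_num; omega⟩
      · exact ⟨3, by norm_num, by rw [h]; norm_num; omega⟩
      · exact ⟨5, by norm_num, by rw [h]; norm_num; omega⟩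
    have hu0 : (u : ℚ_[2]) ≠ 0 := by
      have : u ≠ 0 := by rcases hu with h | h | h | h <;> omega
      exact_mod_cast this
    obtain ⟨k, hk⟩ : ∃ k : ℤ, u ^ 2 + 25 * D' = 4 * k := ⟨(u ^ 2 + 25 * D') / 4, by omega⟩
    have hk8 : k % 8 = d % 8 := by omega
    have hdk : d * k % 8 = 1 := by
      rw [Int.mul_emod, hk8]
      rcases h with h | h <;> rw [h] <;> norm_num
    obtain ⟨v, hv⟩ := sq_of_mod8 hdk
    have h16 : (u ^ 2 + 16 * D') % 8 = 1 := by
      rcases hu with h | h | h | h <;> rw [h] <;> omega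
    obtain ⟨w, hw⟩ := sq_of_mod8 h16
    have hw0 : w ≠ 0 := by
      rintro rfl
      rw [mul_zero] at hw
      have : (u ^ 2 + 16 * D' : ℤ) = 0 := by exact_mod_cast hw
      omega
    have hk' : (u : ℚ_[2]) ^ 2 + 25 * D' = 4 * k := by exact_mod_cast hk
    refine ⟨d * u ^ 2, d * u, d * w, 2 * v, mul_ne_zero hd0 hu0, mul_ne_zero hd0 hw0, by ring,
      ?_, ?_⟩
    · rw [mul_pow, sq w, ← hw]; push_cast; ring
    · rw [mul_pow, sq v, ← hv]; push_cast; linear_combination (d : ℚ_[2]) * hk'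

/-- the places of good reduction -/
theorem at_good {p : ℕ} [hp : Fact p.Prime] (h2 : p ≠ 2) (h3 : p ≠ 3) (h5 : p ≠ 5) {d D' : ℤ}
    (hd : ¬ (p : ℤ) ∣ d) (hD' : ¬ (p : ℤ) ∣ D') :
    IsSquare (d : ℚ_[p]) ∨ IsSquare ((-D' : ℤ) : ℚ_[p]) ∨ ∃ x α β z : ℚ_[p], α ≠ 0 ∧ β ≠ 0 ∧
      x * d = α ^ 2 ∧ (x + 16 * ((d * D' : ℤ) : ℚ_[p])) * d = β ^ 2 ∧
      x + 25 * ((d * D' : ℤ) : ℚ_[p]) = z ^ 2 := by
  have hnD' : ¬ (p : ℤ) ∣ -D' := by rwa [dvd_neg]
  rcases jac_pm hd with j1 | j1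
  · exact Or.inl (sq_of_jac h2 hd j1)
  rcases jac_pm hnD' with j2 | j2
  · exact Or.inr (Or.inl (sq_of_jac h2 hnD' j2))
  right; right
  have n2 : ¬ (p : ℤ) ∣ 2 := by
    intro h'
    exact h2 ((Nat.prime_dvd_prime_iff_eq hp.out Nat.prime_two).1 (by exact_mod_cast h'))
  have n3 : ¬ (p : ℤ) ∣ 3 := by
    intro h'
    exact h3 ((Nat.prime_dvd_prime_iff_eq hp.out Nat.prime_three).1 (by exact_mod_cast h'))
  have n5 : ¬ (p : ℤ) ∣ 5 := by
    intro h'
    exact h5 ((Nat.prime_dvd_prime_iff_eq hp.out Nat.prime_five).1 (by exact_mod_cast h'))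
  have nz : ∀ {u : ℤ}, ¬ (p : ℤ) ∣ u → (u : ZMod p) ≠ 0 := fun {u} hu => by
    rwa [Ne, ZMod.intCast_zmod_eq_zero_iff_dvd]
  have z2 : (2 : ZMod p) ≠ 0 := by have := nz n2; exact_mod_cast this
  have z3 : (3 : ZMod p) ≠ 0 := by have := nz n3; exact_mod_cast this
  have z5 : (5 : ZMod p) ≠ 0 := by have := nz n5; exact_mod_cast this
  set E : ℤ := d * D' with hE
  have hEn : ¬ (p : ℤ) ∣ E := nd_mul hd hD'
  have zE : (E : ZMod p) ≠ 0 := nz hEn
  -- `-E` is a square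
  have jE : jacobiSym (-E) p = 1 := by
    have : -E = d * -D' := by rw [hE]; ring
    rw [this, jacobiSym.mul_left, j1, j2]; norm_num
  have hE1 : IsSquare (-(E : ZMod p)) := by
    have h6 : ¬ (p : ℤ) ∣ -E := by rwa [dvd_neg]
    rw [← jacobiSym.legendreSym.to_jacobiSym] at jE
    have := (legendreSym.eq_one_iff p (nz h6)).1 jE
    push_cast at this
    exact this
  obtain ⟨v, hv⟩ := hE1
  obtain ⟨x, hc, ha, hb⟩ := ff_point (p := p) h2 (a := 0) (b := -16 * (E : ZMod p))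
    (c := -25 * (E : ZMod p)) (by
      intro h
      have h6 : (2 : ZMod p) ^ 4 * E = 0 := by linear_combination h
      exact mul_ne_zero (pow_ne_zero 4 z2) zE h6) (by
      intro h
      have h6 : (5 : ZMod p) ^ 2 * E = 0 := by linear_combination h
      exact mul_ne_zero (pow_ne_zero 2 z5) zE h6) (by
      intro h
      have h6 : (3 : ZMod p) ^ 2 * E = 0 := by linear_combination h
      exact mul_ne_zero (pow_ne_zero 2 z3) zE h6)
  have x0 : x ≠ 0 := by
    rintro rfl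
    obtain ⟨w, hw⟩ := hc
    refine hb (fun h => ?_) ⟨4 * w / 5, ?_⟩
    · have h6 : (2 : ZMod p) ^ 4 * E = 0 := by linear_combination h
      exact mul_ne_zero (pow_ne_zero 4 z2) zE h6
    · field_simp
      linear_combination 16 * hw
  have xb : x ≠ -16 * (E : ZMod p) := by
    rintro rfl
    exact ha x0 ⟨4 * v, by linear_combination 16 * hv⟩
  have xc : x ≠ -25 * (E : ZMod p) := by
    rintro rfl
    exact ha x0 ⟨5 * v, by linear_combination 25 * hv⟩
  have ha' := ha x0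
  have hb' := hb xb
  rw [sub_zero] at ha'
  obtain ⟨r, rfl⟩ := ZMod.intCast_surjective x
  have nsq : ∀ {u : ℤ}, (u : ZMod p) ≠ 0 → ¬ IsSquare (u : ZMod p) →
      ¬ (p : ℤ) ∣ u ∧ jacobiSym u p = -1 := by
    intro u hu0 hu
    have h6 : ¬ (p : ℤ) ∣ u := by rwa [← ZMod.intCast_zmod_eq_zero_iff_dvd]
    refine ⟨h6, ?_⟩
    rcases jac_pm h6 with h7 | h7
    · exfalso
      rw [← jacobiSym.legendreSym.to_jacobiSym] at h7
      exact hu ((legendreSym.eq_one_iff p hu0).1 h7)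
    · exact h7
  obtain ⟨r1, r2⟩ := nsq x0 ha'
  obtain ⟨s1, s2⟩ := nsq (u := r + 16 * E) (by
    push_cast
    intro h
    exact xb (by linear_combination h)) (by
    push_cast
    have : (r : ZMod p) - -16 * (E : ZMod p) = r + 16 * E := by ring
    rwa [this] at hb')
  have t0 : ((r + 25 * E : ℤ) : ZMod p) ≠ 0 := by
    push_cast
    intro h
    exact xc (by linear_combination h)
  have t1 : ¬ (p : ℤ) ∣ r + 25 * E := by rwa [← ZMod.intCast_zmod_eq_zero_iff_dvd]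
  have t2 : jacobiSym (r + 25 * E) p = 1 := by
    rw [← jacobiSym.legendreSym.to_jacobiSym, legendreSym.eq_one_iff p t0]
    push_cast
    have : (r : ZMod p) - -25 * (E : ZMod p) = r + 25 * E := by ring
    rwa [this] at hc
  obtain ⟨α, hα⟩ := sq_of_jac h2 (nd_mul r1 hd) (by rw [jacobiSym.mul_left, r2, j1]; norm_num)
  obtain ⟨β, hβ⟩ := sq_of_jac h2 (nd_mul s1 hd) (by rw [jacobiSym.mul_left, s2, j1]; norm_num)
  obtain ⟨z, hz⟩ := sq_of_jac h2 t1 t2
  have i0 : ∀ {u : ℤ}, ¬ (p : ℤ) ∣ u → (u : ℚ_[p]) ≠ 0 := fun {u} hu => by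
    intro h
    apply hu
    have : u = 0 := by exact_mod_cast h
    rw [this]; exact dvd_zero _
  refine ⟨r, α, β, z, ?_, ?_, ?_, ?_, ?_⟩
  · rintro rfl
    rw [mul_zero] at hα
    exact i0 (nd_mul r1 hd) hα
  · rintro rfl
    rw [mul_zero] at hβ
    exact i0 (nd_mul s1 hd) hβ
  · rw [sq, ← hα]; push_cast; ring
  · rw [sq, ← hβ]; push_cast; ring
  · rw [sq, ← hz]; push_cast; ring

/-- **The converse.** -/
theorem crit_of_sha {W : WeierstrassCurve ℚ} {D : ℕ} {a b c l : ℚ} (m : Mod W D a b c l)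
    (hD : Squarefree D) (hF : Fm D) (h1 : D ≠ 1) (hfin : Finite W.toAffine.Point)
    (hsha : ∀ x : Sha W, x + x = 0 → x = 0) : Crit D := by
  intro d hdD hA hB h5
  by_contra hd1
  have hinj : Function.Injective (algebraMap ℚ QB) := (algebraMap ℚ QB).injective
  have hb := m.r.base QB
  obtain ⟨D', hDD⟩ := hdD
  have hd : Squarefree d := hD.squarefree_of_dvd ⟨D', hDD⟩
  have hd0 : d ≠ 0 := hd.ne_zero
  have hD'0 : D' ≠ 0 := by
    rintro rfl
    rw [mul_zero] at hDD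
    exact hD.ne_zero hDD
  have hdiv : D / d = D' := by rw [hDD]; exact Nat.mul_div_cancel_left _ (Nat.pos_of_ne_zero hd0)
  rw [hdiv] at hB
  have eD : (D : ℤ) = (d : ℤ) * (D' : ℤ) := by rw [hDD]; push_cast; rfl
  obtain ⟨s, hs⟩ := IsAlgClosed.exists_pow_nat_eq (((d : ℤ) : QB)) (n := 2) (by norm_num)
  have nc := hb.nons two_ne_zero (hinj.ne m.ab) (hinj.ne m.ac) (hinj.ne m.bc)
    (x := algebraMap ℚ QB c) (y := 0) (by ring)
  have hTc : (Affine.Point.some _ _ nc : Pt W QB) + .some _ _ nc = 0 :=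
    (hb.add_self two_ne_zero nc).2 rfl
  have hdz : (d : ℤ) ≠ 0 := by exact_mod_cast hd0
  have hev : EvLoc W (fd s (.some _ _ nc)) := by
    constructor
    · intro p hp
      have hdp : ((d : ℤ) : ℚ_[p]) ≠ 0 := by exact_mod_cast hd0
      -- reduction to the three cases
      have red : (IsSquare ((d : ℤ) : ℚ_[p]) ∨ IsSquare ((-(D' : ℤ) : ℤ) : ℚ_[p]) ∨
          ∃ x α β z : ℚ_[p], α ≠ 0 ∧ β ≠ 0 ∧ x * ((d : ℤ) : ℚ_[p]) = α ^ 2 ∧
          (x + 16 * (((d : ℤ) * (D' : ℤ) : ℤ) : ℚ_[p])) * ((d : ℤ) : ℚ_[p]) = β ^ 2 ∧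
          x + 25 * (((d : ℤ) * (D' : ℤ) : ℤ) : ℚ_[p]) = z ^ 2) → LocTriv W ℚ_[p]
            (fd s (.some _ _ nc)) := by
        rintro (h | ⟨w, hw⟩ | ⟨x, α, β, z, k1, k2, k3, k4, k5⟩)
        · exact fd_triv hs h
        · have hw0 : w ≠ 0 := by
            rintro rfl
            rw [mul_zero] at hw
            have : (-(D' : ℤ) : ℤ) = 0 := by exact_mod_cast hw
            omega
          push_cast at hw
          refine fd_norm m hdz hs nc two_ne_zero (x := -25 * ((D : ℤ) : ℚ_[p]))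
            (α := 5 * ((d : ℤ) : ℚ_[p]) * w) (β := 3 * ((d : ℤ) : ℚ_[p]) * w) (z := 0)
            (mul_ne_zero (mul_ne_zero (by norm_num) hdp) hw0)
            (mul_ne_zero (mul_ne_zero (by norm_num) hdp) hw0) ?_ ?_ ?_
          · rw [eD]; push_cast
            linear_combination (25 * (d : ℚ_[p]) ^ 2) * hw
          · rw [eD]; push_cast
            linear_combination (9 * (d : ℚ_[p]) ^ 2) * hw
          · ring
        · exact fd_norm m hdz hs nc two_ne_zero (x := x) k1 k2 k3 (by rw [eD]; exact k4)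
            (by rw [eD]; exact k5)
      apply red
      by_cases hp2 : p = 2
      · subst hp2
        refine at_two ?_
        rw [← eD]
        rcases hF with h | h <;> omega
      by_cases hp5 : p = 5
      · subst hp5
        left
        exact sq_of_jac (by norm_num) (nd_of_jac h5) h5
      by_cases hp3 : p = 3
      · subst hp3
        have h3 : (d * D') % 3 = 1 := by rw [← hDD]; rcases hF with h | h <;> omega
        have e1 : d % 3 = 0 ∨ d % 3 = 1 ∨ d % 3 = 2 := by omega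
        have e2 : D' % 3 = 0 ∨ D' % 3 = 1 ∨ D' % 3 = 2 := by omega
        have e3 : d % 3 = 1 ∨ D' % 3 = 2 := by
          rw [Nat.mul_mod] at h3
          rcases e1 with e1 | e1 | e1 <;> rcases e2 with e2 | e2 | e2 <;> rw [e1, e2] at h3 <;>
            omega
        rcases e3 with e3 | e3
        · left
          have j : jacobiSym ((d : ℕ) : ℤ) 3 = 1 := by
            rw [jacobiSym.mod_left]
            have : ((d : ℕ) : ℤ) % ((3 : ℕ) : ℤ) = 1 := by omega
            rw [this]; norm_num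
          exact sq_of_jac (by norm_num) (nd_of_jac j) j
        · right; left
          have j : jacobiSym (-(D' : ℤ)) 3 = 1 := by
            rw [jacobiSym.mod_left]
            have : (-(D' : ℤ)) % ((3 : ℕ) : ℤ) = 1 := by omega
            rw [this]; norm_num
          exact sq_of_jac (by norm_num) (nd_of_jac j) j
      by_cases hpD : p ∣ D
      · by_cases hpd : p ∣ d
        · right; left
          exact sq_of_jac hp2 (nd_of_jac (hB p hp.out hpd)) (hB p hp.out hpd)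
        · left
          exact sq_of_jac hp2 (nd_of_jac (hA p hp.out hpD hpd)) (hA p hp.out hpD hpd)
      · refine at_good hp2 hp3 hp5 ?_ ?_
        · intro h
          exact hpD (by rw [hDD]; exact Dvd.dvd.mul_right (by exact_mod_cast h) _)
        · intro h
          exact hpD (by rw [hDD]; exact Dvd.dvd.mul_left (by exact_mod_cast h) _)
    · refine fd_triv hs ⟨Real.sqrt d, ?_⟩
      rw [Real.mul_self_sqrt (by positivity)]
      push_cast; rfl
  have hsel := fd_sel hdz hs hTc hev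
  have h2 : (⟨_, hsel⟩ : selHom W) + ⟨_, hsel⟩ = 0 := by
    apply Subtype.ext
    funext σ
    exact fd_add_self hTc σ
  have h3 := hsha (toSha m.r ⟨_, hsel⟩) (by rw [← map_add, h2, map_zero])
  obtain ⟨Q, hQ⟩ := (toSha_ker m.r ⟨_, hsel⟩).1 (AddMonoidHom.mem_ker.2 h3)
  exact fd_not_cob m hD h1 hfin hd hd1 hs nc ⟨Q, hQ⟩

end Pool.Agent.H468.X15
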