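import Pool.Agent.H468.X15S.Loc2
import Pool.Agent.H468.X15.Glob

/-!
# The Selmer classes of the twists of `X_0(15)`
-/

set_option autoImplicit false
set_option linter.all false

open scoped Classical

namespace Pool.Agent.H468.X15

open Finset
open Pool.Agent.Y703.CQ (nr)
open Pool.Agent.H757_X15.DD (aa bb Fm Gd Sol Crit sI sI_add sI_eq sI_sum jac_nr jac_prod jac_five
  jac_neg t_CRIT)

/-- The four Selmer classes. -/
theorem sel_classes {D : ℕ} (hD : Squarefree D) (hF : Fm D) (hC : Crit D) (h1 : D ≠ 1)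
    {e e' : ℤ} (he : Squarefree e) (he' : Squarefree e') (hsign : e' < 0 ↔ e < 0)
    (v2A : ¬ (2 : ℤ) ∣ e) (v2B : ¬ (2 : ℤ) ∣ e') (p2AB : p2 e = p2 e')
    (v3B : ¬ (3 : ℤ) ∣ e') (ps5B : ps 5 e' = 1)
    (oA : ∀ ℓ : ℕ, ℓ.Prime → ℓ ≠ 2 → ℓ ≠ 5 → ¬ ℓ ∣ D → ¬ (ℓ : ℤ) ∣ e)
    (oB : ∀ ℓ : ℕ, ℓ.Prime → ℓ ≠ 2 → ℓ ≠ 3 → ¬ ℓ ∣ D → ¬ (ℓ : ℤ) ∣ e')
    (hlc : ∀ p : ℕ, p.Prime → 7 ≤ p → ∀ D' : ℕ, D = p * D' → ¬ p ∣ D' →
      (ps p e = if (p : ℤ) ∣ e then jacobiSym (-D') p else 1) ∧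
      (ps p e' = (if (p : ℤ) ∣ e' then jacobiSym D' p else 1) *
        (if (p : ℤ) ∣ e then jacobiSym (-1) p else 1))) :
    (e = 1 ∧ e' = 1) ∨ (e = 1 ∧ e' = D) ∨ (e = -D ∧ e' = -1) ∨ (e = -D ∧ e' = -D) := by
  set S := D.primeFactors with hSdef
  have hD0 : D ≠ 0 := hD.ne_zero
  have hpr : ∀ q ∈ S, q.Prime := fun q hq => Nat.prime_of_mem_primeFactors hq
  have hdv : ∀ q ∈ S, q ∣ D := fun q hq => Nat.dvd_of_mem_primeFactors hq
  have h7 : ∀ q ∈ S, 7 ≤ q := by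
    intro q hq
    by_contra hlt
    push Not at hlt
    have h2 := (hpr q hq).two_le
    have h3 := hdv q hq
    have hqp := hpr q hq
    interval_cases q
    · rcases hF with h | h <;> omega
    · rcases hF with h | h <;> omega
    · exact absurd hqp (by norm_num)
    · rcases hF with h | h <;> omega
    · exact absurd hqp (by norm_num)
  have hD4 : (D : ℤ) % 4 = 1 := by rcases hF with h | h <;> omega
  have hD3 : (D : ℤ) % 3 = 1 := by rcases hF with h | h <;> omega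
  have hD5 : (D : ℤ) % 5 = 1 ∨ (D : ℤ) % 5 = 4 := by
    rcases hF with h | h
    · left; omega
    · right; omega
  have h5S : (5 : ℕ) ∉ S := fun h5 => by
    have := h7 5 h5
    omega
  have hSne : S.Nonempty := by
    rw [hSdef, Nat.nonempty_primeFactors]
    omega
  -- the square parts
  obtain ⟨b1, hb1e⟩ : ∃ b : ℕ, b = e.natAbs := ⟨_, rfl⟩
  obtain ⟨b2, hb2e⟩ : ∃ b : ℕ, b = e'.natAbs := ⟨_, rfl⟩
  have hb1 : Squarefree b1 := by rw [hb1e]; exact Int.squarefree_natAbs.2 he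
  have hb2 : Squarefree b2 := by rw [hb2e]; exact Int.squarefree_natAbs.2 he'
  have d1 : ∀ q : ℕ, (q : ℤ) ∣ e ↔ q ∣ b1 := fun q => by rw [hb1e]; exact Int.natCast_dvd
  have d2 : ∀ q : ℕ, (q : ℤ) ∣ e' ↔ q ∣ b2 := fun q => by rw [hb2e]; exact Int.natCast_dvd
  obtain ⟨δ, hδ⟩ : ∃ δ : ℤ, δ = if e < 0 then -1 else 1 := ⟨_, rfl⟩
  obtain ⟨σ, hσ⟩ : ∃ σ : ZMod 2, σ = if e < 0 then 1 else 0 := ⟨_, rfl⟩
  have e1 : e = δ * b1 := by
    rw [hδ, hb1e]
    split_ifs <;> omega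
  have e2 : e' = δ * b2 := by
    rw [hδ, hb2e]
    split_ifs <;> omega
  have hδpm : δ = 1 ∨ δ = -1 := by
    rw [hδ]; split_ifs <;> simp
  have hδ0 : δ ≠ 0 := by rcases hδpm with h | h <;> rw [h] <;> norm_num
  have hδs : ∀ p : ℕ, p.Prime → p ≠ 2 → ps p δ = sI (σ * aa p) := by
    intro p hp hp2
    haveI : Fact p.Prime := ⟨hp⟩
    have hp1 : ¬ (p : ℤ) ∣ 1 := fun h' => hp.one_lt.ne' (Nat.dvd_one.1 (by exact_mod_cast h'))
    rw [hδ, hσ]
    by_cases hr : e < 0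
    · rw [if_pos hr, if_pos hr, one_mul, ps_unit (by rw [dvd_neg]; exact hp1), jac_neg hp hp2]
    · rw [if_neg hr, if_neg hr, zero_mul, ps_unit hp1, jacobiSym.one_left]
      simp [sI]
  have hb10 : (b1 : ℤ) ≠ 0 := by exact_mod_cast hb1.ne_zero
  have hb20 : (b2 : ℤ) ≠ 0 := by exact_mod_cast hb2.ne_zero
  have hpsb : ∀ (p : ℕ) (hp : p.Prime) (hp2 : p ≠ 2) (b : ℕ), Squarefree b →
      ps p (δ * b) = sI (σ * aa p + ∑ q ∈ b.primeFactors, nr p q) := by
    intro p hp hp2 b hb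
    haveI : Fact p.Prime := ⟨hp⟩
    have hb0 : (b : ℤ) ≠ 0 := by exact_mod_cast hb.ne_zero
    rw [ps_mul hδ0 hb0, hδs p hp hp2, ps_sqf hp hb, sI_add]
  -- the primes dividing the squarefree parts
  have hmemS : ∀ q : ℕ, q.Prime → q ∣ D → q ∈ S := fun q hq hqD =>
    Nat.mem_primeFactors.2 ⟨hq, hqD, hD0⟩
  have sub1 : b1.primeFactors ⊆ insert 5 S := by
    intro q hq
    have hqp := Nat.prime_of_mem_primeFactors hq
    have hqd := (d1 q).2 (Nat.dvd_of_mem_primeFactors hq)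
    rw [mem_insert]
    by_contra hcon
    push Not at hcon
    obtain ⟨hq5, hqS⟩ := hcon
    by_cases hq2 : q = 2
    · subst hq2; exact v2A (by exact_mod_cast hqd)
    · exact oA q hqp hq2 hq5 (fun h' => hqS (hmemS q hqp h')) hqd
  have sub2 : b2.primeFactors ⊆ S := by
    intro q hq
    have hqp := Nat.prime_of_mem_primeFactors hq
    have hqd := (d2 q).2 (Nat.dvd_of_mem_primeFactors hq)
    by_contra hqS
    by_cases hq2 : q = 2
    · subst hq2; exact v2B (by exact_mod_cast hqd)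
    · by_cases hq3 : q = 3
      · subst hq3; exact v3B (by exact_mod_cast hqd)
      · exact oB q hqp hq2 hq3 (fun h' => hqS (hmemS q hqp h')) hqd
  have hS5 : ∀ q ∈ insert 5 S, q.Prime := by
    intro q hq
    rcases mem_insert.1 hq with rfl | hq
    · norm_num
    · exact hpr q hq
  set α : ℕ → ZMod 2 := fun q => if q ∣ b1 then 1 else 0 with hα
  set β : ℕ → ZMod 2 := fun q => if q ∣ b2 then 1 else 0 with hβ
  have sum1 : ∀ f : ℕ → ZMod 2, ∑ q ∈ b1.primeFactors, f q = f 5 * α 5 + ∑ q ∈ S, f q * α q := by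
    intro f
    rw [sum_pf hb1.ne_zero sub1 hS5 f, sum_insert h5S]
  have sum2 : ∀ f : ℕ → ZMod 2, ∑ q ∈ b2.primeFactors, f q = ∑ q ∈ S, f q * β q := by
    intro f
    rw [sum_pf hb2.ne_zero sub2 hpr f]
  have hne2 : ∀ q ∈ S, q ≠ 2 := fun q hq => by have := h7 q hq; omega
  have hne5 : ∀ q ∈ S, q ≠ 5 := fun q hq => by have := h7 q hq; omega
  -- the equations at the primes dividing `D`
  have hloc : ∀ p ∈ S, (σ * aa p + (bb p * α 5 + ∑ q ∈ S, nr p q * α q) =
        α p * (aa p + ∑ q ∈ S, nr p q)) ∧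
      (σ * aa p + ∑ q ∈ S, nr p q * β q = β p * ∑ q ∈ S, nr p q + α p * aa p) := by
    intro p hp
    have hpp := hpr p hp
    haveI : Fact p.Prime := ⟨hpp⟩
    obtain ⟨D', hD'⟩ := hdv p hp
    have hD'n : ¬ p ∣ D' := by
      rintro ⟨k, hk⟩
      have h2 : p * p ∣ D := ⟨k, by rw [hD', hk]; ring⟩
      have := hD p h2
      exact hpp.one_lt.ne' (Nat.isUnit_iff.1 this)
    have hD'z : ¬ (p : ℤ) ∣ (D' : ℤ) := by exact_mod_cast hD'n
    have hDz : (D : ℤ) = p * D' := by rw [hD']; push_cast; rfl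
    have hJ : jacobiSym (D' : ℤ) p = sI (∑ q ∈ S, nr p q) := by
      rw [← ps_p hD'z, ← hDz]
      exact ps_sqf hpp hD
    have hJ' : jacobiSym (-(D' : ℤ)) p = sI (aa p + ∑ q ∈ S, nr p q) := by
      rw [neg_eq_neg_one_mul, jacobiSym.mul_left, hJ, jac_neg hpp (hne2 p hp), sI_add]
    obtain ⟨l1, l2⟩ := hlc p hpp (h7 p hp) D' hD' hD'n
    have q1 : ps p e = sI (σ * aa p + ∑ q ∈ b1.primeFactors, nr p q) := by
      conv_lhs => rw [e1]
      exact hpsb p hpp (hne2 p hp) b1 hb1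
    have q2 : ps p e' = sI (σ * aa p + ∑ q ∈ b2.primeFactors, nr p q) := by
      conv_lhs => rw [e2]
      exact hpsb p hpp (hne2 p hp) b2 hb2
    have i1 : (if (p : ℤ) ∣ e then (1 : ZMod 2) else 0) = α p := by
      rw [hα]
      simp only [d1 p]
    have i2 : (if (p : ℤ) ∣ e' then (1 : ZMod 2) else 0) = β p := by
      rw [hβ]
      simp only [d2 p]
    rw [q1, hJ', sI_mul_ind, i1, sum1] at l1
    rw [q2, hJ, jac_neg hpp (hne2 p hp), sI_mul_ind, sI_mul_ind, i1, i2, sum2, ← sI_add] at l2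
    rw [nr_five hpp (hne2 p hp) (hne5 p hp)] at l1
    exact ⟨sI_inj l1, sI_inj l2⟩
  -- the sums
  have ha : ∑ q ∈ S, aa q = 0 := by
    rw [← sI_eq, ← p2_sqf hD (by omega), p2_unit (by omega)]
    exact ZMod.χ₄_int_one_mod_four hD4
  have hnr5 : ∀ q ∈ S, nr 5 q = bb q := by
    intro q hq
    apply sI_inj
    rw [← jac_nr (by norm_num) (hpr q hq) (Ne.symm (hne5 q hq))]
    refine jac_five ?_
    intro h0
    exact hne5 q hq ((Nat.prime_dvd_prime_iff_eq (by norm_num) (hpr q hq)).1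
      (Nat.dvd_of_mod_eq_zero h0)).symm
  have hb : ∑ q ∈ S, bb q = 0 := by
    have h5p : Nat.Prime 5 := by norm_num
    haveI : Fact (Nat.Prime 5) := ⟨h5p⟩
    have h5D : ¬ ((5 : ℕ) : ℤ) ∣ (D : ℤ) := by push_cast; omega
    rw [← sI_eq, ← sum_congr rfl hnr5, ← ps_sqf h5p hD, ps_unit h5D, jacobiSym.mod_left]
    have h5 : (D : ℤ) % ((5 : ℕ) : ℤ) = 1 ∨ (D : ℤ) % ((5 : ℕ) : ℤ) = 4 := by exact_mod_cast hD5
    rcases h5 with h5 | h5
    · rw [h5]; norm_num
    · rw [h5]; norm_num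
  have hN : ∀ p ∈ S, ∀ q ∈ S, p ≠ q → nr p q = nr q p + aa p * aa q := fun p hp q hq hpq =>
    nr_rec (hpr p hp) (hpr q hq) (hne2 p hp) (hne2 q hq) hpq
  have hGd : Gd S := (t_CRIT D hD hF).1 hC
  have hG : ∀ x : ℕ → ZMod 2, (∀ p ∈ S, Mx S nr aa x p = 0) → ∑ p ∈ S, bb p * x p = 0 →
      ∀ p ∈ S, x p = 0 := fun x hx1 hx2 => hGd x ⟨hx1, hx2⟩
  have E1 : ∀ p ∈ S, Mx S nr aa (fun q => α q + σ) p = α 5 * bb p := by
    intro p hp
    have k := (hloc p hp).1
    unfold Mx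
    have j : ∑ q ∈ S, nr p q * (α q + σ + (α p + σ)) =
        ∑ q ∈ S, nr p q * α q + α p * ∑ q ∈ S, nr p q := by
      rw [Finset.mul_sum, ← sum_add_distrib]
      refine sum_congr rfl fun q _ => ?_
      linear_combination (nr p q) * (z2 σ)
    rw [j]
    linear_combination k + (-(bb p * α 5)) * (z2 1) + (α p * ∑ q ∈ S, nr p q + aa p * α p) * (z2 1)
  have E2 : ∀ p ∈ S, My S nr (fun q => β q + σ) p = aa p * (α p + σ) := by
    intro p hp
    have k := (hloc p hp).2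
    unfold My
    have j : ∑ q ∈ S, nr p q * (β q + σ + (β p + σ)) =
        ∑ q ∈ S, nr p q * β q + β p * ∑ q ∈ S, nr p q := by
      rw [Finset.mul_sum, ← sum_add_distrib]
      refine sum_congr rfl fun q _ => ?_
      linear_combination (nr p q) * (z2 σ)
    rw [j]
    linear_combination k + (β p * ∑ q ∈ S, nr p q) * (z2 1) + (-(σ * aa p)) * (z2 1)
  have E3 : ∑ p ∈ S, aa p * (α p + σ + (β p + σ)) = 0 := by
    have h2b1 : ¬ 2 ∣ b1 := fun h2 => v2A (by exact_mod_cast (d1 2).2 h2)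
    have h2b2 : ¬ 2 ∣ b2 := fun h2 => v2B (by exact_mod_cast (d2 2).2 h2)
    have k1 : p2 e = p2 δ * sI (∑ q ∈ b1.primeFactors, aa q) := by
      conv_lhs => rw [e1]
      rw [p2_mul hδ0 hb10, p2_sqf hb1 h2b1]
    have k2 : p2 e' = p2 δ * sI (∑ q ∈ b2.primeFactors, aa q) := by
      conv_lhs => rw [e2]
      rw [p2_mul hδ0 hb20, p2_sqf hb2 h2b2]
    rw [k1, k2] at p2AB
    have hp2δ : p2 δ ≠ 0 := by
      rcases p2_pm hδ0 with h | h <;> rw [h] <;> norm_num
    have k3 := sI_inj (mul_left_cancel₀ hp2δ p2AB)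
    rw [sum1, sum2] at k3
    have k4 : aa 5 = 0 := by unfold aa; rw [if_neg (by norm_num)]
    rw [k4, zero_mul, zero_add] at k3
    have k5 : ∑ p ∈ S, aa p * (α p + σ + (β p + σ)) =
        ∑ p ∈ S, aa p * α p + ∑ p ∈ S, aa p * β p := by
      rw [← sum_add_distrib]
      refine sum_congr rfl fun q _ => ?_
      linear_combination (aa q) * (z2 σ)
    rw [k5, k3, z2]
  have E4 : ∑ p ∈ S, bb p * (β p + σ) = 0 := by
    have k1 : ps 5 e' = sI (σ * aa 5 + ∑ q ∈ b2.primeFactors, nr 5 q) := by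
      conv_lhs => rw [e2]
      exact hpsb 5 (by norm_num) (by norm_num) b2 hb2
    have k4 : aa 5 = 0 := by unfold aa; rw [if_neg (by norm_num)]
    rw [k1, k4, mul_zero, zero_add, sI_eq, sum2] at ps5B
    have k5 : ∑ q ∈ S, nr 5 q * β q = ∑ q ∈ S, bb q * β q :=
      sum_congr rfl fun q hq => by rw [hnr5 q hq]
    rw [k5] at ps5B
    have k6 : ∑ p ∈ S, bb p * (β p + σ) = ∑ p ∈ S, bb p * β p + (∑ p ∈ S, bb p) * σ := by
      rw [Finset.sum_mul, ← sum_add_distrib]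
      exact sum_congr rfl fun q _ => by ring
    rw [k6, ps5B, hb, zero_mul, add_zero]
  obtain ⟨hε, hx, hy⟩ := core S nr aa bb hN ha hb hG hSne (fun q => α q + σ) (fun q => β q + σ)
    (α 5) E1 E2 E3 E4
  -- the conclusions
  have h5b1 : ¬ 5 ∣ b1 := by
    intro h5
    have : α 5 = 1 := if_pos h5
    rw [this] at hε
    exact one_ne_zero hε
  have sub1' : b1.primeFactors ⊆ S := by
    intro q hq
    rcases mem_insert.1 (sub1 hq) with rfl | h'
    · exact absurd (Nat.dvd_of_mem_primeFactors hq) h5b1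
    · exact h'
  have hα0 : ∀ q ∈ S, α q = 0 → ¬ q ∣ b1 := fun q _ h0 hd => by
    have : α q = 1 := if_pos hd
    rw [this] at h0
    exact one_ne_zero h0
  have hα1 : ∀ q ∈ S, α q = 1 → q ∣ b1 := fun q _ h0 => by
    by_contra hd
    have : α q = 0 := if_neg hd
    rw [this] at h0
    exact zero_ne_one h0
  have hβ0 : ∀ q ∈ S, β q = 0 → ¬ q ∣ b2 := fun q _ h0 hd => by
    have : β q = 1 := if_pos hd
    rw [this] at h0
    exact one_ne_zero h0
  have hβ1 : ∀ q ∈ S, β q = 1 → q ∣ b2 := fun q _ h0 => by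
    by_contra hd
    have : β q = 0 := if_neg hd
    rw [this] at h0
    exact zero_ne_one h0
  by_cases hr : e < 0
  · -- negative
    have hσ1 : σ = 1 := by rw [hσ, if_pos hr]
    have hδ1 : δ = -1 := by rw [hδ, if_pos hr]
    have hb1D : b1 = D := eq_D_of hb1 hD sub1' fun q hq => hα1 q hq (by
      have := hx q hq
      simp only [hσ1] at this
      linear_combination this - z2 1)
    have sqA : e = -D := by rw [e1, hδ1, hb1D]; ring
    rcases hy with hy | hy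
    · have hb2D : b2 = D := eq_D_of hb2 hD sub2 fun q hq => hβ1 q hq (by
        have := hy q hq
        simp only [hσ1] at this
        linear_combination this - z2 1)
      refine Or.inr (Or.inr (Or.inr ⟨sqA, ?_⟩))
      rw [e2, hδ1, hb2D]; ring
    · have hb21 : b2 = 1 := eq_one_of hb2 sub2 fun q hq => hβ0 q hq (by
        have := hy q hq
        simp only [hσ1] at this
        linear_combination this)
      refine Or.inr (Or.inr (Or.inl ⟨sqA, ?_⟩))
      rw [e2, hδ1, hb21]; push_cast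
  · have hσ0 : σ = 0 := by rw [hσ, if_neg hr]
    have hδ1 : δ = 1 := by rw [hδ, if_neg hr]
    have hb11 : b1 = 1 := eq_one_of hb1 sub1' fun q hq => hα0 q hq (by
      have := hx q hq
      simp only [hσ0] at this
      linear_combination this)
    have sqA : e = 1 := by rw [e1, hδ1, hb11]; push_cast
    rcases hy with hy | hy
    · have hb21 : b2 = 1 := eq_one_of hb2 sub2 fun q hq => hβ0 q hq (by
        have := hy q hq
        simp only [hσ0] at this
        linear_combination this)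
      refine Or.inl ⟨sqA, ?_⟩
      rw [e2, hδ1, hb21]; push_cast
    · have hb2D : b2 = D := eq_D_of hb2 hD sub2 fun q hq => hβ1 q hq (by
        have := hy q hq
        simp only [hσ0] at this
        linear_combination this)
      refine Or.inr (Or.inl ⟨sqA, ?_⟩)
      rw [e2, hδ1, hb2D]; ring

end Pool.Agent.H468.X15
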