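import Pool.Agent.H468.X15S.ShaZ
import Pool.Agent.H468.X15S.FF

/-!
# A Selmer homomorphism attached to a divisor
-/

set_option autoImplicit false
set_option linter.all false

open scoped Classical

namespace Pool.Agent.H468.X15

open WeierstrassCurve
open Pool.Agent.TH841.SH
open Pool.Agent.W262.SH (QB Pt act LocTriv Sha)
open Pool.Agent.H757_X15.DD (Fm Crit)

/-- the homomorphism with value `T` at the automorphisms which move `s` -/
noncomputable def fd {W : WeierstrassCurve ℚ} (s : QB) (T : Pt W QB) :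
    (QB ≃ₐ[ℚ] QB) → Pt W QB := fun σ => if σ s = s then 0 else T

theorem fd_pos {W : WeierstrassCurve ℚ} {s : QB} {T : Pt W QB} {σ : QB ≃ₐ[ℚ] QB} (h : σ s = s) :
    fd s T σ = 0 := if_pos h

theorem fd_neg {W : WeierstrassCurve ℚ} {s : QB} {T : Pt W QB} {σ : QB ≃ₐ[ℚ] QB} (h : σ s ≠ s) :
    fd s T σ = T := if_neg h

theorem moved {d : ℤ} {s : QB} (hs : s ^ 2 = d) {σ : QB ≃ₐ[ℚ] QB} (h : σ s ≠ s) : σ s = -s := by
  have h6 : (σ s) ^ 2 = s ^ 2 := by
    rw [← map_pow, hs, map_intCast]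
  rcases sq_eq_sq_iff_eq_or_eq_neg.1 h6 with h7 | h7
  · exact absurd h7 h
  · exact h7

theorem fd_add_self {W : WeierstrassCurve ℚ} {s : QB} {T : Pt W QB} (hT : T + T = 0)
    (σ : QB ≃ₐ[ℚ] QB) : fd s T σ + fd s T σ = 0 := by
  by_cases h : σ s = s
  · rw [fd_pos h, add_zero]
  · rw [fd_neg h, hT]

theorem fd_sel {W : WeierstrassCurve ℚ} {d : ℤ} (hd : d ≠ 0) {s : QB} (hs : s ^ 2 = d)
    {T : Pt W QB} (hT : T + T = 0) (hev : EvLoc W (fd s T)) : fd s T ∈ selHom W := by
  have hs0 : s ≠ 0 := by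
    rintro rfl
    rw [zero_pow two_ne_zero] at hs
    exact hd (by exact_mod_cast hs.symm)
  have hss : -s ≠ s := by
    intro h
    have h1 : (2 : QB) * s = 0 := by linear_combination -h
    exact hs0 ((mul_eq_zero.1 h1).resolve_left two_ne_zero)
  refine ⟨(lc_apply s).comp fun x => if x = s then (0 : Pt W QB) else T, fd_add_self hT, ?_, hev⟩
  intro σ τ
  by_cases h1 : τ s = s
  · rw [fd_pos h1, add_zero]
    have h2 : (σ * τ) s = σ s := by rw [AlgEquiv.mul_apply, h1]
    by_cases h3 : σ s = s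
    · rw [fd_pos h3, fd_pos (h2.trans h3)]
    · rw [fd_neg h3, fd_neg (fun h => h3 (h2.symm.trans h))]
  · rw [fd_neg h1]
    have h2 : (σ * τ) s = -σ s := by rw [AlgEquiv.mul_apply, moved hs h1, map_neg]
    by_cases h3 : σ s = s
    · rw [fd_pos h3, zero_add, fd_neg]
      rw [h2, h3]; exact hss
    · rw [fd_neg h3, hT, fd_pos]
      rw [h2, moved hs h3, neg_neg]

/-- the class is locally trivial where `d` is a square -/
theorem fd_triv {W : WeierstrassCurve ℚ} {d : ℤ} {s : QB} (hs : s ^ 2 = d)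
    {T : Pt W QB} {K : Type} [Field K] [Algebra ℚ K] (hK : IsSquare (d : K)) :
    LocTriv W K (fd s T) := by
  intro ι
  refine ⟨0, fun τ σ hτ => ?_⟩
  rw [map_zero, sub_zero, fd_pos, map_zero]
  obtain ⟨w, hw⟩ := hK
  have h1 : (ι s) ^ 2 = (algebraMap K (AlgebraicClosure K) w) ^ 2 := by
    rw [← map_pow, hs, map_intCast, ← map_pow, sq w, ← hw, map_intCast]
  have h2 : τ (ι s) = ι s := by
    rcases sq_eq_sq_iff_eq_or_eq_neg.1 h1 with h | h
    · rw [h]; exact τ.commutes w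
    · rw [h, map_neg]; congr 1; exact τ.commutes w
  have h3 : τ (ι s) = ι (σ s) := DFunLike.congr_fun hτ s
  exact ι.injective (h3.symm.trans h2)

/-- the class is locally trivial where it comes from a point -/
theorem fd_pt {W : WeierstrassCurve ℚ} {a b c : ℚ} (h : IsR W a b c) (hab : a ≠ b) (hac : a ≠ c)
    (hbc : b ≠ c) {d : ℤ} (hd : d ≠ 0) {s : QB} (hs : s ^ 2 = d)
    (nc : (W.baseChange QB).toAffine.Nonsingular (algebraMap ℚ QB c) 0)
    {K : Type} [Field K] [Algebra ℚ K] (h2K : (2 : K) ≠ 0)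
    {x α β z : K} (hα : α ≠ 0) (hβ : β ≠ 0) (h1 : (x - algebraMap ℚ K a) * d = α ^ 2)
    (h2 : (x - algebraMap ℚ K b) * d = β ^ 2) (h3 : x - algebraMap ℚ K c = z ^ 2) :
    LocTriv W K (fd s (.some _ _ nc)) := by
  intro ι
  have h2Ω : (2 : AlgebraicClosure K) ≠ 0 := by
    have h3 := (map_ne_zero (algebraMap K (AlgebraicClosure K))).2 h2K
    rwa [map_ofNat] at h3
  have hinj : Function.Injective (algebraMap ℚ (AlgebraicClosure K)) :=
    (algebraMap ℚ (AlgebraicClosure K)).injective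
  have hinjK : Function.Injective (algebraMap ℚ K) := (algebraMap ℚ K).injective
  have hinjQ : Function.Injective (algebraMap ℚ QB) := (algebraMap ℚ QB).injective
  have hdK : (d : K) ≠ 0 := by
    have h4 : algebraMap ℚ K (d : ℚ) ≠ 0 := by
      rw [Ne, map_eq_zero]; exact_mod_cast hd
    rwa [map_intCast] at h4
  have hbΩ := h.base (AlgebraicClosure K)
  -- the point over `K`
  have hxy : (α * β * z / d) ^ 2 = (x - algebraMap ℚ K a) * (x - algebraMap ℚ K b) *
      (x - algebraMap ℚ K c) := by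
    rw [h3, div_pow, mul_pow, mul_pow, ← h1, ← h2]
    field_simp
  have hn1 : (W.baseChange K).toAffine.Nonsingular x (α * β * z / d) :=
    (h.base K).nons h2K (hinjK.ne hab) (hinjK.ne hac) (hinjK.ne hbc) hxy
  let j : K →ₐ[ℚ] AlgebraicClosure K := IsScalarTower.toAlgHom ℚ K (AlgebraicClosure K)
  set P : Pt W (AlgebraicClosure K) := act W j (.some x _ hn1) with hP
  have hPfix : ∀ τ : AlgebraicClosure K ≃ₐ[K] AlgebraicClosure K,
      act W (τ.toAlgHom.restrictScalars ℚ) P = P := by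
    intro τ
    rw [hP, act_act]
    congr 1
    congr 1
    ext w
    exact τ.commutes w
  have hP0 : P ≠ 0 := by
    rw [hP, act_some]
    exact Affine.Point.some_ne_zero _
  obtain ⟨Q, hQ⟩ := hbΩ.div h2Ω (hinj.ne hab) (hinj.ne hac) (hinj.ne hbc) P
  refine ⟨Q, fun τ σ hτ => ?_⟩
  set T := act W (τ.toAlgHom.restrictScalars ℚ) Q - Q with hT
  have hTT : T + T = 0 := by
    have e : T + T = (act W (τ.toAlgHom.restrictScalars ℚ) Q +
        act W (τ.toAlgHom.restrictScalars ℚ) Q) - (Q + Q) := by rw [hT]; abel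
    rw [e, ← map_add, ← hQ, hPfix, sub_self]
  have hQT : act W (τ.toAlgHom.restrictScalars ℚ) Q = Q + T := by rw [hT]; abel
  rcases Q with _ | ⟨u, v, hn⟩
  · exact absurd (hQ.trans (add_zero 0)) hP0
  have hv : v ≠ 0 := fun hv => hP0 (hQ.trans ((hbΩ.add_self h2Ω hn).2 hv))
  obtain ⟨X, Y, hn', e1, hXa⟩ := hbΩ.dup h2Ω hn hv
  obtain ⟨X', Y', hn'', e1', hXb⟩ := hbΩ.swap.dup h2Ω hn hv
  rw [← hQ, hP, act_some, Affine.Point.some.injEq] at e1 e1'
  rw [← e1.1] at hXa
  rw [← e1'.1] at hXb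
  have hcomm : ∀ w : QB, τ (ι w) = ι (σ w) := fun w => DFunLike.congr_fun hτ w
  have hs0 : s ≠ 0 := by
    rintro rfl
    rw [zero_pow two_ne_zero] at hs
    exact hd (by exact_mod_cast hs.symm)
  have hιs0 : ι s ≠ 0 := by rw [Ne, map_eq_zero]; exact hs0
  have key : ∀ (g : AlgebraicClosure K) (α' : K), α' ≠ 0 →
      (g * ι s) ^ 2 = (algebraMap K (AlgebraicClosure K) α') ^ 2 → g ≠ 0 ∧ (τ g = g ↔ σ s = s) := by
    intro g α' hα' hg
    have h4 : τ (g * ι s) = g * ι s := by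
      rcases sq_eq_sq_iff_eq_or_eq_neg.1 hg with h | h
      · rw [h]; exact τ.commutes α'
      · rw [h, map_neg]; congr 1; exact τ.commutes α'
    have hg0 : g ≠ 0 := by
      rintro rfl
      rw [zero_mul, zero_pow two_ne_zero] at hg
      exact (pow_ne_zero 2 ((map_ne_zero (algebraMap K (AlgebraicClosure K))).2 hα')) hg.symm
    refine ⟨hg0, ?_⟩
    rw [map_mul, hcomm] at h4
    constructor
    · intro h5
      rw [h5] at h4
      exact ι.injective (mul_left_cancel₀ hg0 h4)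
    · intro h5
      rw [h5] at h4
      exact mul_right_cancel₀ hιs0 h4
  have eQd : (ι s) ^ 2 = algebraMap K (AlgebraicClosure K) (d : K) := by
    rw [← map_pow, hs, map_intCast, map_intCast]
  have ga := act_gf (a := a) (b := b) (c := c) (τ.toAlgHom.restrictScalars ℚ) (.some u v hn)
  have gb := act_gf (a := b) (b := a) (c := c) (τ.toAlgHom.restrictScalars ℚ) (.some u v hn)
  rw [hQT] at ga gb
  obtain ⟨u1, v1, m1, q1, -, sa, sa'⟩ := hbΩ.sign h2Ω (hinj.ne hab) (hinj.ne hac) (hinj.ne hbc)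
    hn hv hTT
  obtain ⟨u2, v2, m2, q2, -, sb, sb'⟩ := hbΩ.swap.sign h2Ω (hinj.ne hab.symm) (hinj.ne hbc)
    (hinj.ne hac) hn hv hTT
  rw [← q1] at sa sa'
  rw [← q2] at sb sb'
  have ka := key (gf (W.baseChange (AlgebraicClosure K)) (algebraMap ℚ _ a) (algebraMap ℚ _ b)
    (algebraMap ℚ _ c) (.some u v hn)) α hα (by
      rw [mul_pow, eQd, ← map_pow, ← h1, map_mul, map_sub, ← IsScalarTower.algebraMap_apply]
      congr 1
      exact hXa.symm)
  have kb := key (gf (W.baseChange (AlgebraicClosure K)) (algebraMap ℚ _ b) (algebraMap ℚ _ a)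
    (algebraMap ℚ _ c) (.some u v hn)) β hβ (by
      rw [mul_pow, eQd, ← map_pow, ← h2, map_mul, map_sub, ← IsScalarTower.algebraMap_apply]
      congr 1
      exact hXb.symm)
  have fin : ∀ (g g' : AlgebraicClosure K) (I : Prop), g ≠ 0 → τ g = g' → (I → g' = g) →
      (¬ I → g' = -g) → (I ↔ τ g = g) := by
    intro g g' I hg h4 h5 h6
    constructor
    · intro hI; rw [h4, h5 hI]
    · intro h7
      by_contra hI
      have h8 := h6 hI
      rw [← h4, h7] at h8
      have h9 : 2 * g = 0 := by linear_combination h8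
      exact hg ((mul_eq_zero.1 h9).resolve_left h2Ω)
  have ia := (fin _ _ _ ka.1 ga sa sa').trans ka.2
  have ib := (fin _ _ _ kb.1 gb sb sb').trans kb.2
  have hι2 : act W ι (fd s (.some _ _ nc) σ) + act W ι (fd s (.some _ _ nc) σ) = 0 := by
    rw [← map_add, fd_add_self, map_zero]
    exact ((h.base QB).add_self two_ne_zero nc).2 rfl
  refine hbΩ.ext h2Ω (hinj.ne hab) (hinj.ne hac) (hinj.ne hbc) hι2 hTT ?_ ?_
  · rw [act_isX, ia]
    by_cases h5 : σ s = s
    · rw [fd_pos h5]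
      exact ⟨fun _ => h5, fun _ => isX_zero _⟩
    · rw [fd_neg h5]
      exact ⟨fun h6 => absurd h6 (not_isX nc (hinjQ.ne hac.symm)), fun h6 => absurd h6 h5⟩
  · rw [act_isX, ib]
    by_cases h5 : σ s = s
    · rw [fd_pos h5]
      exact ⟨fun _ => h5, fun _ => isX_zero _⟩
    · rw [fd_neg h5]
      exact ⟨fun h6 => absurd h6 (not_isX nc (hinjQ.ne hbc.symm)), fun h6 => absurd h6 h5⟩

end Pool.Agent.H468.X15
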