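import Pool.Agent.H468.X15S.Cob

/-!
# The Selmer homomorphism attached to a divisor is not a coboundary
-/

set_option autoImplicit false
set_option linter.all false

open scoped Classical

namespace Pool.Agent.H468.X15

open WeierstrassCurve
open Pool.Agent.TH841.SH
open Pool.Agent.W262.SH (QB Pt act LocTriv Sha)
open Pool.Agent.H757_X15.DD (Fm Crit)

/-- a finite group without elements of order four -/
theorem half_tor {G : Type} [AddCommGroup G] [Finite G]
    (h4 : ∀ R : G, (R + R) + (R + R) = 0 → R + R = 0) (P : G) :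
    ∃ T R : G, T + T = 0 ∧ P = T + (R + R) := by
  let S : Type := {x : G // ∃ y, x = y + y}
  let f : S → S := fun x => ⟨x.1 + x.1, x.1, rfl⟩
  have hf : Function.Injective f := by
    rintro ⟨x, y, hx⟩ ⟨x', y', hx'⟩ h
    apply Subtype.ext
    show x = x'
    have h1 : x + x = x' + x' := congrArg Subtype.val h
    have h2 := h4 (y - y') (by
      have e : (y - y' + (y - y')) + (y - y' + (y - y')) = (y + y + (y + y)) - (y' + y' + (y' + y')) := by
        abel
      rw [e, ← hx, ← hx', h1, sub_self])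
    have e : y - y' + (y - y') = x - x' := by rw [hx, hx']; abel
    rw [e] at h2
    exact sub_eq_zero.1 h2
  haveI : Finite S := Subtype.finite
  obtain ⟨⟨x, y, hx⟩, hxP⟩ := Finite.surjective_of_injective hf ⟨P + P, P, rfl⟩
  have h1 : x + x = P + P := congrArg Subtype.val hxP
  refine ⟨P - x, y, ?_, by rw [← hx]; abel⟩
  have e : P - x + (P - x) = (P + P) - (x + x) := by abel
  rw [e, h1, sub_self]

theorem fd_not_cob {W : WeierstrassCurve ℚ} {D : ℕ} {a b c l : ℚ} (m : Mod W D a b c l)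
    (hD : Squarefree D) (h1 : D ≠ 1) (hfin : Finite W.toAffine.Point) {d : ℕ} (hd : Squarefree d)
    (hd1 : d ≠ 1) {s : QB} (hs : s ^ 2 = ((d : ℤ) : QB))
    (nc : (W.baseChange QB).toAffine.Nonsingular (algebraMap ℚ QB c) 0) :
    ¬ ∃ Q : Pt W QB, ∀ σ : QB ≃ₐ[ℚ] QB,
      fd s (.some _ _ nc) σ = act W σ.toAlgHom Q - Q := by
  rintro ⟨Q, hQ⟩
  have hinj : Function.Injective (algebraMap ℚ QB) := (algebraMap ℚ QB).injective
  have hb := m.r.base QB
  have kab := hinj.ne m.ab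
  have kac := hinj.ne m.ac
  have kbc := hinj.ne m.bc
  have hDq : 0 < (D : ℚ) := by
    have : 0 < D := Nat.pos_of_ne_zero hD.ne_zero
    exact_mod_cast this
  have hdq : 0 < (d : ℚ) := by
    have : 0 < d := Nat.pos_of_ne_zero hd.ne_zero
    exact_mod_cast this
  have hl2 : 0 < l ^ 2 := by
    have := m.l0
    positivity
  have hTc : (Affine.Point.some _ _ nc : Pt W QB) + .some _ _ nc = 0 :=
    (hb.add_self two_ne_zero nc).2 rfl
  have hs0 : s ≠ 0 := by
    rintro rfl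
    rw [zero_pow two_ne_zero] at hs
    have h2 : ((d : ℕ) : QB) = 0 := by exact_mod_cast hs.symm
    exact hd.ne_zero (by exact_mod_cast h2)
  -- `s` is moved
  have hmove : ∃ σ : QB ≃ₐ[ℚ] QB, σ s ≠ s := by
    by_contra hcon
    push Not at hcon
    obtain ⟨q, hq⟩ := fix_mem (K := ℚ) s hcon
    have h2 : q ^ 2 = (d : ℚ) := by
      apply hinj
      rw [map_pow, hq, hs, map_natCast, Int.cast_natCast]
    have h3 : IsSquare ((d : ℕ) : ℚ) := ⟨q, by rw [← h2]; ring⟩
    rw [Rat.isSquare_natCast_iff] at h3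
    obtain ⟨w, hw⟩ := h3
    have h4 := hd w ⟨1, by rw [mul_one]; exact hw⟩
    rw [Nat.isUnit_iff] at h4
    exact hd1 (by rw [hw, h4])
  obtain ⟨j, hj, hjσ, hjf⟩ := exists_rat W
  -- the point `Q + Q` is rational
  have hPfix : ∀ σ : QB ≃ₐ[ℚ] QB, act W σ.toAlgHom (Q + Q) = Q + Q := by
    intro σ
    have e : act W σ.toAlgHom (Q + Q) - (Q + Q) =
        (act W σ.toAlgHom Q - Q) + (act W σ.toAlgHom Q - Q) := by rw [map_add]; abel
    rw [← hQ σ, fd_add_self hTc] at e
    exact sub_eq_zero.1 e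
  obtain ⟨P, hP⟩ := hjf _ hPfix
  obtain ⟨T, R, hT, hPT⟩ := half_tor (G := W.toAffine.Point) (fun R hR => by
    apply hj
    rw [map_add, map_zero]
    refine no_four m hD h1 (hjσ · R) ?_
    rw [← map_add, ← map_add, hR, map_zero]) P
  -- the point `Q' = Q - R`
  set Q' : Pt W QB := Q - j R with hQ'
  have hQ'2 : Q' + Q' = j T := by
    have e : Q' + Q' = (Q + Q) - (j R + j R) := by rw [hQ']; abel
    rw [e, ← hP, hPT, map_add, map_add, add_sub_cancel_right]
  have hQ'σ : ∀ σ : QB ≃ₐ[ℚ] QB, act W σ.toAlgHom Q' = Q' + fd s (.some _ _ nc) σ := by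
    intro σ
    rw [hQ σ, hQ', map_sub, hjσ]
    abel
  have hjT : j T + j T = 0 := by rw [← map_add, hT, map_zero]
  -- the case of a point with `Q' + Q' ≠ 0`
  rcases hQ'e : Q' with _ | ⟨u, v, hn⟩
  · rw [hQ'e] at hQ'σ
    obtain ⟨σ, hσ⟩ := hmove
    have h3 := hQ'σ σ
    rw [fd_neg hσ] at h3
    have h4 : (0 : Pt W QB) = 0 + .some _ _ nc := (map_zero (act W σ.toAlgHom)).symm.trans h3
    rw [zero_add] at h4
    exact Affine.Point.some_ne_zero _ h4.symm
  rw [hQ'e] at hQ'σ hQ'2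
  by_cases hv : v = 0
  · have h3 : (Affine.Point.some u v hn : Pt W QB) + .some u v hn = 0 :=
      (hb.add_self two_ne_zero hn).2 hv
    obtain ⟨σ, hσ⟩ := hmove
    have h4 := hQ'σ σ
    rw [tors_fix m.r h3, fd_neg hσ] at h4
    exact Affine.Point.some_ne_zero _ (left_eq_add.1 h4)
  obtain ⟨X, Y, hn', e1, hXa⟩ := hb.dup two_ne_zero hn hv
  obtain ⟨X', Y', hn'', e1', hXc⟩ := hb.rot.rot.dup two_ne_zero hn hv
  rw [e1, Affine.Point.some.injEq] at e1'
  obtain ⟨rfl, rfl⟩ := e1'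
  have ga : ∀ σ : QB ≃ₐ[ℚ] QB, σ (gf (W.baseChange QB) (algebraMap ℚ QB a) (algebraMap ℚ QB b)
      (algebraMap ℚ QB c) (.some u v hn)) = gf (W.baseChange QB) (algebraMap ℚ QB a)
      (algebraMap ℚ QB b) (algebraMap ℚ QB c) (.some u v hn + fd s (.some _ _ nc) σ) := by
    intro σ
    rw [← hQ'σ σ]
    exact act_gf (a := a) (b := b) (c := c) σ.toAlgHom (.some u v hn)
  have gc : ∀ σ : QB ≃ₐ[ℚ] QB, σ (gf (W.baseChange QB) (algebraMap ℚ QB c) (algebraMap ℚ QB a)
      (algebraMap ℚ QB b) (.some u v hn)) = gf (W.baseChange QB) (algebraMap ℚ QB c)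
      (algebraMap ℚ QB a) (algebraMap ℚ QB b) (.some u v hn + fd s (.some _ _ nc) σ) := by
    intro σ
    rw [← hQ'σ σ]
    exact act_gf (a := c) (b := a) (c := b) σ.toAlgHom (.some u v hn)
  obtain ⟨u1, v1, m1, q1, -, -, sa⟩ := hb.sign two_ne_zero kab kac kbc hn hv hTc
  have sa' := sa (not_isX nc kac.symm)
  rw [← q1] at sa'
  obtain ⟨u3, v3, m3, q3, -, sc, -⟩ := hb.rot.rot.sign two_ne_zero kac.symm kbc.symm kab hn hv hTc
  have sc' := sc (isX_some nc)
  rw [← q3] at sc'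
  -- the value at `c` is rational
  obtain ⟨qc, hqc⟩ : ∃ q : ℚ, algebraMap ℚ QB q = gf (W.baseChange QB) (algebraMap ℚ QB c)
      (algebraMap ℚ QB a) (algebraMap ℚ QB b) (.some u v hn) := by
    refine fix_mem _ fun σ => ?_
    rw [gc σ]
    by_cases h3 : σ s = s
    · rw [fd_pos h3, add_zero]
    · rw [fd_neg h3]; exact sc'
  -- the value at `a` times `s` is rational
  obtain ⟨qa, hqa⟩ : ∃ q : ℚ, algebraMap ℚ QB q = gf (W.baseChange QB) (algebraMap ℚ QB a)
      (algebraMap ℚ QB b) (algebraMap ℚ QB c) (.some u v hn) * s := by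
    refine fix_mem _ fun σ => ?_
    rw [map_mul, ga σ]
    by_cases h3 : σ s = s
    · rw [fd_pos h3, add_zero, h3]
    · rw [fd_neg h3, moved hs h3, sa', neg_mul_neg]
  have hXc' : X - algebraMap ℚ QB c = algebraMap ℚ QB (qc ^ 2) := by
    rw [map_pow, hqc]; exact hXc
  have hXa' : (X - algebraMap ℚ QB a) * algebraMap ℚ QB d = algebraMap ℚ QB (qa ^ 2) := by
    rw [map_pow, hqa, mul_pow, hs, map_natCast, Int.cast_natCast]
    congr 1
  rw [e1] at hQ'2
  rw [← hQ'2] at hjT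
  rcases hb.tors two_ne_zero hjT with h | ⟨hn3, h⟩ | ⟨hn3, h⟩ | ⟨hn3, h⟩
  · exact Affine.Point.some_ne_zero _ h
  · rw [Affine.Point.some.injEq] at h
    rw [h.1, ← map_sub] at hXc'
    have h5 := hinj hXc'
    apply h1
    refine sq_D hD m.l0 (k := 5) (by norm_num) (q := qc) ?_
    rw [← h5, m.hc]; push_cast; ring
  · rw [Affine.Point.some.injEq] at h
    rw [h.1, ← map_sub, ← map_mul] at hXa'
    have h5 := hinj hXa'
    rw [m.hb] at h5
    push_cast at h5
    nlinarith [sq_nonneg qa, mul_pos (mul_pos hDq hl2) hdq]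
  · rw [Affine.Point.some.injEq] at h
    rw [h.1, ← map_sub, ← map_mul] at hXa'
    have h5 := hinj hXa'
    rw [m.hc] at h5
    push_cast at h5
    nlinarith [sq_nonneg qa, mul_pos (mul_pos hDq hl2) hdq]

end Pool.Agent.H468.X15
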