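import Pool.Agent.H468.X15.Sml

/-!
# Local conditions for the Selmer groups of the twists of `X_0(15)`
-/

set_option autoImplicit false
set_option linter.all false

open scoped Classical

namespace Pool.Agent.H468.X15

open Finset
open Pool.Agent.H757_X15.DD (aa bb Fm Gd Sol Crit sI)

section

variable {p : ℕ} [hp : Fact p.Prime]

/-- the local condition at a prime divisor of `D = p D'` -/
theorem loc' (h7 : 7 ≤ p) {D' r t : ℤ} (hD : ¬ (p : ℤ) ∣ D') (hrt : IsCoprime r t)
    (hA : r ≠ 0) (hB : r + 16 * (p * D') * t ^ 2 ≠ 0) (hC : r + 25 * (p * D') * t ^ 2 ≠ 0)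
    (hev : Even (padicValInt p (r * (r + 16 * (p * D') * t ^ 2) * (r + 25 * (p * D') * t ^ 2))))
    (hps : ps p (r * (r + 16 * (p * D') * t ^ 2) * (r + 25 * (p * D') * t ^ 2)) = 1) :
    (ps p r = if Odd (padicValInt p r) then jacobiSym (-D') p else 1) ∧
    (ps p (r + 16 * (p * D') * t ^ 2) =
      (if Odd (padicValInt p (r + 16 * (p * D') * t ^ 2)) then jacobiSym D' p else 1) *
        (if Odd (padicValInt p r) then jacobiSym (-1) p else 1)) := by
  have n3 : ¬ (p : ℤ) ∣ 3 := by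
    intro h3
    have := Int.le_of_dvd (by norm_num) h3
    omega
  have n4 : ¬ (p : ℤ) ∣ 4 := by
    intro h3
    have := Int.le_of_dvd (by norm_num) h3
    omega
  have n5 : ¬ (p : ℤ) ∣ 5 := by
    intro h3
    have := Int.le_of_dvd (by norm_num) h3
    omega
  have n1 : ¬ (p : ℤ) ∣ -1 := by
    intro h3
    have := Int.le_of_dvd (by norm_num) ((dvd_neg).1 h3 : (p : ℤ) ∣ 1)
    omega
  rw [ps_mul (mul_ne_zero hA hB) hC, ps_mul hA hB] at hps
  rw [val_mul (mul_ne_zero hA hB) hC, val_mul hA hB] at hev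
  obtain ⟨m, hm⟩ := hev
  have hval := hm.trans (two_mul m).symm
  clear hm
  by_cases hr : (p : ℤ) ∣ r
  · have ht := nd_of_coprime hrt hr
    obtain ⟨r1, rfl⟩ := hr
    have eB : (p : ℤ) * r1 + 16 * (p * D') * t ^ 2 = p * (r1 + 16 * D' * t ^ 2) := by ring
    have eC : (p : ℤ) * r1 + 25 * (p * D') * t ^ 2 = p * (r1 + 25 * D' * t ^ 2) := by ring
    rw [eB] at hB hps hval ⊢
    rw [eC] at hC hps hval
    have hr1 : r1 ≠ 0 := by rintro rfl; exact hA (mul_zero _)
    by_cases hr2 : (p : ℤ) ∣ r1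
    · -- the valuation of `r` is at least two
      have uB : ¬ (p : ℤ) ∣ r1 + 16 * D' * t ^ 2 := by
        intro h'
        have h1 : (p : ℤ) ∣ D' * (4 * t) ^ 2 := by
          have := dvd_sub h' hr2
          have e : r1 + 16 * D' * t ^ 2 - r1 = D' * (4 * t) ^ 2 := by ring
          rwa [e] at this
        exact nd_mul hD (nd_pow (nd_mul n4 ht) 2) h1
      have uC : ¬ (p : ℤ) ∣ r1 + 25 * D' * t ^ 2 := by
        intro h'
        have h1 : (p : ℤ) ∣ D' * (5 * t) ^ 2 := by
          have := dvd_sub h' hr2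
          have e : r1 + 25 * D' * t ^ 2 - r1 = D' * (5 * t) ^ 2 := by ring
          rwa [e] at this
        exact nd_mul hD (nd_pow (nd_mul n5 ht) 2) h1
      have jB : jacobiSym (r1 + 16 * D' * t ^ 2) p = jacobiSym D' p := by
        rw [← jac_mul_sq (u := D') (nd_mul n4 ht)]
        refine jac_congr ?_
        have e : r1 + 16 * D' * t ^ 2 - D' * (4 * t) ^ 2 = r1 := by ring
        rw [e]; exact hr2
      have jC : jacobiSym (r1 + 25 * D' * t ^ 2) p = jacobiSym D' p := by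
        rw [← jac_mul_sq (u := D') (nd_mul n5 ht)]
        refine jac_congr ?_
        have e : r1 + 25 * D' * t ^ 2 - D' * (5 * t) ^ 2 = r1 := by ring
        rw [e]; exact hr2
      rw [ps_p uB, ps_p uC, jB, jC, mul_assoc, jac_mul_self hD, mul_one] at hps
      rw [val_p uB, val_p uC] at hval
      have hev : ¬ Odd (padicValInt p ((p : ℤ) * r1)) := by
        rw [Nat.not_odd_iff_even]
        exact ⟨m - 1, by omega⟩
      rw [if_neg hev, if_neg hev, ps_p uB, jB, val_p uB, if_pos odd_one, mul_one]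
      exact ⟨hps, rfl⟩
    · -- the valuation of `r` is one
      have vA := val_p hr2
      rw [vA] at hval
      rw [ps_p hr2] at hps
      rw [vA, if_pos odd_one, if_pos odd_one, ps_p hr2]
      by_cases k1 : (p : ℤ) ∣ r1 + 16 * D' * t ^ 2
      · have uC : ¬ (p : ℤ) ∣ r1 + 25 * D' * t ^ 2 := by
          intro h'
          have h1 : (p : ℤ) ∣ D' * (3 * t) ^ 2 := by
            have := dvd_sub h' k1
            have e : r1 + 25 * D' * t ^ 2 - (r1 + 16 * D' * t ^ 2) = D' * (3 * t) ^ 2 := by ring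
            rwa [e] at this
          exact nd_mul hD (nd_pow (nd_mul n3 ht) 2) h1
        have jA : jacobiSym r1 p = jacobiSym (-D') p := by
          rw [← jac_mul_sq (u := -D') (nd_mul n4 ht)]
          refine jac_congr ?_
          have e : r1 - -D' * (4 * t) ^ 2 = r1 + 16 * D' * t ^ 2 := by ring
          rw [e]; exact k1
        have jC : jacobiSym (r1 + 25 * D' * t ^ 2) p = jacobiSym D' p := by
          rw [← jac_mul_sq (u := D') (nd_mul n3 ht)]
          refine jac_congr ?_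
          have e : r1 + 25 * D' * t ^ 2 - D' * (3 * t) ^ 2 = r1 + 16 * D' * t ^ 2 := by ring
          rw [e]; exact k1
        rw [val_p uC] at hval
        rw [ps_p uC, jC, jA] at hps
        have hev : ¬ Odd (padicValInt p ((p : ℤ) * (r1 + 16 * D' * t ^ 2))) := by
          rw [Nat.not_odd_iff_even]
          exact ⟨m - 1, by omega⟩
        rw [if_neg hev, one_mul]
        refine ⟨jA, ?_⟩
        have e1 : jacobiSym (-D') p = jacobiSym (-1) p * jacobiSym D' p := by
          rw [← jacobiSym.mul_left]; congr 1; ring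
        rw [e1] at hps
        have e2 := jac_mul_self hD
        have e3 := jac_mul_self n1
        generalize ps p ((p : ℤ) * (r1 + 16 * D' * t ^ 2)) = X at *
        have : X = jacobiSym (-1) p * (jacobiSym (-1) p * jacobiSym D' p * X * jacobiSym D' p) := by
          linear_combination (-X) * e3 - (X * jacobiSym (-1) p * jacobiSym (-1) p) * e2
        rw [hps, mul_one] at this
        exact this
      · have vB := val_p k1
        by_cases k2 : (p : ℤ) ∣ r1 + 25 * D' * t ^ 2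
        · have jA : jacobiSym r1 p = jacobiSym (-D') p := by
            rw [← jac_mul_sq (u := -D') (nd_mul n5 ht)]
            refine jac_congr ?_
            have e : r1 - -D' * (5 * t) ^ 2 = r1 + 25 * D' * t ^ 2 := by ring
            rw [e]; exact k2
          have jB : jacobiSym (r1 + 16 * D' * t ^ 2) p = jacobiSym (-D') p := by
            rw [← jac_mul_sq (u := -D') (nd_mul n3 ht)]
            refine jac_congr ?_
            have e : r1 + 16 * D' * t ^ 2 - -D' * (3 * t) ^ 2 = r1 + 25 * D' * t ^ 2 := by ring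
            rw [e]; exact k2
          rw [vB, if_pos odd_one, ps_p k1, jB]
          refine ⟨jA, ?_⟩
          rw [← jacobiSym.mul_left]
          congr 1
          ring
        · exfalso
          rw [vB, val_p k2] at hval
          omega
  · -- `p` does not divide `r`
    have cB : (p : ℤ) ∣ r + 16 * (p * D') * t ^ 2 - r := ⟨16 * D' * t ^ 2, by ring⟩
    have cC : (p : ℤ) ∣ r + 25 * (p * D') * t ^ 2 - r := ⟨25 * D' * t ^ 2, by ring⟩
    have uB : ¬ (p : ℤ) ∣ r + 16 * (p * D') * t ^ 2 := by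
      intro h'
      have := dvd_sub h' cB
      rw [sub_sub_cancel] at this
      exact hr this
    have uC : ¬ (p : ℤ) ∣ r + 25 * (p * D') * t ^ 2 := by
      intro h'
      have := dvd_sub h' cC
      rw [sub_sub_cancel] at this
      exact hr this
    have jB := jac_congr cB
    have jC := jac_congr cC
    rw [ps_unit hr, ps_unit uB, ps_unit uC, jB, jC] at hps
    rw [val_unit hr, val_unit uB, if_neg (by decide), if_neg (by decide), if_neg (by decide),
      ps_unit hr, ps_unit uB, jB]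
    rw [jac_mul_self hr, one_mul] at hps
    exact ⟨hps, by rw [hps]; norm_num⟩

end

theorem vsum' {p : ℕ} [Fact p.Prime] {A B C : ℤ} (hA : A ≠ 0) (hB : B ≠ 0) (hC : C ≠ 0)
    (h : Even (padicValInt p (A * B * C))) :
    ∃ m : ℕ, padicValInt p A + padicValInt p B + padicValInt p C = 2 * m := by
  rw [val_mul (mul_ne_zero hA hB) hC, val_mul hA hB] at h
  obtain ⟨m, hm⟩ := h
  exact ⟨m, hm.trans (two_mul m).symm⟩

theorem two' {D r t : ℤ} (hD : D % 4 = 1) (hrt : IsCoprime r t) (hA : r ≠ 0)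
    (hB : r + 16 * D * t ^ 2 ≠ 0) (hC : r + 25 * D * t ^ 2 ≠ 0)
    (hev : Even (padicValInt 2 (r * (r + 16 * D * t ^ 2) * (r + 25 * D * t ^ 2))))
    (hps : p2 (r * (r + 16 * D * t ^ 2) * (r + 25 * D * t ^ 2)) = 1) :
    ¬ Odd (padicValInt 2 r) ∧ ¬ Odd (padicValInt 2 (r + 16 * D * t ^ 2)) ∧
      p2 r = p2 (r + 16 * D * t ^ 2) := by
  haveI : Fact (Nat.Prime 2) := ⟨Nat.prime_two⟩
  have hD4 : (D : ZMod 4) = 1 := by
    rw [← ZMod.intCast_mod D 4]
    have : D % ((4 : ℕ) : ℤ) = 1 := by exact_mod_cast hD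
    rw [this]; decide
  have hDo : ¬ (2 : ℤ) ∣ D := by omega
  obtain ⟨m, hvs⟩ := vsum' (p := 2) hA hB hC hev
  by_cases hr : (2 : ℤ) ∣ r
  · have ht : ¬ (2 : ℤ) ∣ t := fun h' => Int.prime_two.not_unit (hrt.isUnit_of_dvd' hr h')
    have ht4 := odd4 ht
    have hDt : ¬ (2 : ℤ) ∣ D * t ^ 2 := by
      rw [sq]
      exact nd2_mul hDo (nd2_mul ht ht)
    have hCo : ¬ (2 : ℤ) ∣ r + 25 * D * t ^ 2 := by
      intro h'
      have h1 := dvd_sub h' hr
      have e : r + 25 * D * t ^ 2 - r = 25 * (D * t ^ 2) := by ring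
      rw [e] at h1
      exact nd2_mul (by norm_num) hDt h1
    have hvC := val2_unit hCo
    obtain ⟨a, rfl⟩ := hr
    by_cases ha : (2 : ℤ) ∣ a
    · obtain ⟨a, rfl⟩ := ha
      have hp2 : p2 (2 * (2 * a)) = p2 (2 * (2 * a) + 16 * D * t ^ 2) := by
        have h1 := hps
        rw [p2_mul (mul_ne_zero hA hB) hC, p2_mul hA hB] at h1
        have h2 : p2 (2 * (2 * a) + 25 * D * t ^ 2) = 1 := by
          rw [p2_unit hCo]
          push_cast
          rw [hD4]
          have : ∀ a t : ZMod 4, (t = 1 ∨ t = 3) →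
              ZMod.χ₄ (2 * (2 * a) + 25 * 1 * t ^ 2) = 1 := by decide
          exact this _ _ ht4
        rw [h2, mul_one] at h1
        rcases p2_pm hA with h3 | h3 <;> rcases p2_pm hB with h4 | h4 <;>
          rw [h3, h4] at h1 ⊢ <;> norm_num at h1
      by_cases ha : (2 : ℤ) ∣ a
      · obtain ⟨a, rfl⟩ := ha
        by_cases ha : (2 : ℤ) ∣ a
        · obtain ⟨a, rfl⟩ := ha
          by_cases ha : (2 : ℤ) ∣ a
          · have hu : ¬ (2 : ℤ) ∣ a + D * t ^ 2 := by
              intro h'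
              have := dvd_sub h' ha
              rw [add_sub_cancel_left] at this
              exact hDt this
            have e : 2 * (2 * (2 * (2 * a))) + 16 * D * t ^ 2 = 2 ^ 4 * (a + D * t ^ 2) := by ring
            have hv := val2_of (k := 4) hu
            rw [e] at hvs hp2 ⊢
            rw [hv] at hvs ⊢
            refine ⟨?_, by decide, hp2⟩
            rw [Nat.not_odd_iff_even]
            exact ⟨m - 2, by omega⟩
          · have e : 2 * (2 * (2 * (2 * a))) = 2 ^ 4 * a := by ring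
            have hv := val2_of (k := 4) ha
            rw [e] at hvs hp2 hvC ⊢
            rw [hv] at hvs ⊢
            refine ⟨by decide, ?_, hp2⟩
            rw [Nat.not_odd_iff_even]
            exact ⟨m - 2, by omega⟩
        · exfalso
          have e : 2 * (2 * (2 * a)) * (2 * (2 * (2 * a)) + 16 * D * t ^ 2) *
              (2 * (2 * (2 * a)) + 25 * D * t ^ 2) =
              2 ^ 6 * (a * (a + 2 * (D * t ^ 2)) * (8 * a + 25 * (D * t ^ 2))) := by ring
          have o1 : ¬ (2 : ℤ) ∣ a * (a + 2 * (D * t ^ 2)) * (8 * a + 25 * (D * t ^ 2)) := by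
            refine nd2_mul (nd2_mul ha ?_) ?_
            · intro h'
              have h3 := dvd_sub h' (dvd_mul_right 2 (D * t ^ 2))
              rw [add_sub_cancel_right] at h3
              exact ha h3
            · intro h'
              have h3 := dvd_sub h' ((by norm_num : (2 : ℤ) ∣ 8).mul_right a)
              rw [add_sub_cancel_left] at h3
              exact nd2_mul (by norm_num) hDt h3
          rw [e, p2_of o1] at hps
          push_cast at hps
          rw [hD4] at hps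
          have h3 : ∀ a t : ZMod 4, (a = 1 ∨ a = 3) → (t = 1 ∨ t = 3) →
            ZMod.χ₄ (a * (a + 2 * (1 * t ^ 2)) * (8 * a + 25 * (1 * t ^ 2))) ≠ 1 := by decide
          exact h3 _ _ (odd4 ha) ht4 hps
      · have e1 : 2 * (2 * a) = 2 ^ 2 * a := by ring
        have hu : ¬ (2 : ℤ) ∣ a + 4 * (D * t ^ 2) := by
          intro h'
          have h2 : (2 : ℤ) ∣ 4 * (D * t ^ 2) := Dvd.dvd.mul_right (by norm_num) _
          have := dvd_sub h' h2
          rw [add_sub_cancel_right] at this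
          exact ha this
        have e2 : 2 * (2 * a) + 16 * D * t ^ 2 = 2 ^ 2 * (a + 4 * (D * t ^ 2)) := by ring
        refine ⟨?_, ?_, hp2⟩
        · rw [e1, val2_of ha]; decide
        · rw [e2, val2_of hu]; decide
    · exfalso
      have e : 2 * a * (2 * a + 16 * D * t ^ 2) * (2 * a + 25 * D * t ^ 2) =
          2 ^ 2 * (a * (a + 8 * (D * t ^ 2)) * (2 * a + 25 * (D * t ^ 2))) := by ring
      have o1 : ¬ (2 : ℤ) ∣ a * (a + 8 * (D * t ^ 2)) * (2 * a + 25 * (D * t ^ 2)) := by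
        refine nd2_mul (nd2_mul ha ?_) ?_
        · intro h'
          have h3 := dvd_sub h' ((by norm_num : (2 : ℤ) ∣ 8).mul_right (D * t ^ 2))
          rw [add_sub_cancel_right] at h3
          exact ha h3
        · intro h'
          have h3 := dvd_sub h' (dvd_mul_right 2 a)
          rw [add_sub_cancel_left] at h3
          exact nd2_mul (by norm_num) hDt h3
      rw [e, p2_of o1] at hps
      push_cast at hps
      rw [hD4] at hps
      have h3 : ∀ a t : ZMod 4, (a = 1 ∨ a = 3) → (t = 1 ∨ t = 3) →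
        ZMod.χ₄ (a * (a + 8 * (1 * t ^ 2)) * (2 * a + 25 * (1 * t ^ 2))) ≠ 1 := by decide
      exact h3 _ _ (odd4 ha) ht4 hps
  · have hBo : ¬ (2 : ℤ) ∣ r + 16 * D * t ^ 2 := by
      intro h'
      have h2 : (2 : ℤ) ∣ 16 * D * t ^ 2 := ⟨8 * D * t ^ 2, by ring⟩
      have := dvd_sub h' h2
      rw [add_sub_cancel_right] at this
      exact hr this
    refine ⟨?_, ?_, ?_⟩
    · rw [val2_unit hr]; decide
    · rw [val2_unit hBo]; decide
    · rw [p2_unit hr, p2_unit hBo]
      congr 1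
      push_cast
      have : (16 : ZMod 4) = 0 := by decide
      rw [this]; ring

theorem d3b' : ∀ b t : ZMod 3, b ≠ 0 → t ≠ 0 →
    (3 * b - 16 * 1 * t ^ 2) * b * (b + 3 * 1 * t ^ 2) = 2 := by decide

theorem three' {D r t : ℤ} (hD : D % 3 = 1) (hrt : IsCoprime r t) (hA : r ≠ 0)
    (hB : r + 16 * D * t ^ 2 ≠ 0) (hC : r + 25 * D * t ^ 2 ≠ 0)
    (hev : Even (padicValInt 3 (r * (r + 16 * D * t ^ 2) * (r + 25 * D * t ^ 2))))
    (hps : ps 3 (r * (r + 16 * D * t ^ 2) * (r + 25 * D * t ^ 2)) = 1) :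
    ¬ Odd (padicValInt 3 (r + 16 * D * t ^ 2)) := by
  haveI : Fact (Nat.Prime 3) := ⟨Nat.prime_three⟩
  have hD3 : (D : ZMod 3) = 1 := by
    rw [← ZMod.intCast_mod D 3]
    have : D % ((3 : ℕ) : ℤ) = 1 := by exact_mod_cast hD
    rw [this]; exact Int.cast_one
  obtain ⟨m, hvs⟩ := vsum' (p := 3) hA hB hC hev
  have nz : ∀ {a : ℤ}, ¬ (3 : ℤ) ∣ a → (a : ZMod 3) ≠ 0 := by
    intro a ha h0
    exact ha (by exact_mod_cast (ZMod.intCast_zmod_eq_zero_iff_dvd a 3).1 h0)
  by_cases hb : (3 : ℤ) ∣ r + 16 * D * t ^ 2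
  · have ht : ¬ (3 : ℤ) ∣ t := by
      intro h'
      have h2 : (3 : ℤ) ∣ 16 * D * t ^ 2 := Dvd.dvd.mul_left (Dvd.dvd.pow h' two_ne_zero) _
      have h3 := dvd_sub hb h2
      rw [add_sub_cancel_right] at h3
      exact Int.prime_three.not_unit (hrt.isUnit_of_dvd' h3 h')
    have ht3 := nz ht
    obtain ⟨b, hb⟩ := hb
    have er : r = 3 * b - 16 * D * t ^ 2 := by linarith
    have hr3 : ¬ (3 : ℤ) ∣ r := by
      intro h'
      have h0 : (r : ZMod 3) = 0 := by
        have := (ZMod.intCast_zmod_eq_zero_iff_dvd r 3).2 (by exact_mod_cast h')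
        exact this
      rw [er] at h0
      push_cast at h0
      rw [hD3] at h0
      exact d3a _ _ ht3 h0
    have hvA : padicValInt 3 r = 0 := padicValInt.eq_zero_of_not_dvd (by exact_mod_cast hr3)
    by_cases hb3 : (3 : ℤ) ∣ b
    · obtain ⟨b', rfl⟩ := hb3
      have eB : r + 16 * D * t ^ 2 = ((3 : ℕ) : ℤ) ^ 2 * b' := by rw [hb]; push_cast; ring
      by_cases hb9 : (3 : ℤ) ∣ b'
      · have hu : ¬ ((3 : ℕ) : ℤ) ∣ b' + D * t ^ 2 := by
          intro h'
          have h'' : (3 : ℤ) ∣ b' + D * t ^ 2 := by exact_mod_cast h'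
          have h1 := dvd_sub h'' hb9
          rw [add_sub_cancel_left] at h1
          rcases Int.prime_three.dvd_or_dvd h1 with h2 | h2
          · omega
          · exact ht (Int.prime_three.dvd_of_dvd_pow h2)
        have eC : r + 25 * D * t ^ 2 = ((3 : ℕ) : ℤ) ^ 2 * (b' + D * t ^ 2) := by
          rw [er]; push_cast; ring
        have hvC : padicValInt 3 (r + 25 * D * t ^ 2) = 2 := by
          rw [eC]; exact val_of hu
        rw [Nat.not_odd_iff_even]
        exact ⟨m - 1, by omega⟩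
      · have hvB : padicValInt 3 (r + 16 * D * t ^ 2) = 2 := by
          rw [eB]; exact val_of (by exact_mod_cast hb9)
        rw [hvB]; decide
    · exfalso
      have e2 : r * (r + 16 * D * t ^ 2) * (r + 25 * D * t ^ 2) =
          ((3 : ℕ) : ℤ) ^ 2 * (r * b * (b + 3 * D * t ^ 2)) := by
        have e3 : r + 25 * D * t ^ 2 = 3 * (b + 3 * D * t ^ 2) := by rw [er]; ring
        rw [e3, hb]; push_cast; ring
      have e4 : ((r * b * (b + 3 * D * t ^ 2) : ℤ) : ZMod 3) = 2 := by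
        rw [er]
        push_cast
        rw [hD3]
        exact d3b' _ _ (nz hb3) ht3
      have e5 : ((3 : ℕ) : ℤ) ∣ r * b * (b + 3 * D * t ^ 2) - 2 := by
        rw [← ZMod.intCast_zmod_eq_zero_iff_dvd]
        push_cast at e4 ⊢
        rw [e4]
        exact sub_self _
      have o1 : ¬ ((3 : ℕ) : ℤ) ∣ r * b * (b + 3 * D * t ^ 2) := by
        intro h'
        have h3 := dvd_sub h' e5
        rw [sub_sub_cancel] at h3
        norm_num at h3
      rw [e2, ps_of o1, jac_congr e5] at hps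
      norm_num at hps
  · have : padicValInt 3 (r + 16 * D * t ^ 2) = 0 :=
      padicValInt.eq_zero_of_not_dvd (by exact_mod_cast hb)
    rw [this]; decide

theorem five' {D r t : ℤ} (hD : D % 5 = 1 ∨ D % 5 = 4) (hrt : IsCoprime r t) (hA : r ≠ 0)
    (hB : r + 16 * D * t ^ 2 ≠ 0) (hC : r + 25 * D * t ^ 2 ≠ 0)
    (hev : Even (padicValInt 5 (r * (r + 16 * D * t ^ 2) * (r + 25 * D * t ^ 2))))
    (hps : ps 5 (r * (r + 16 * D * t ^ 2) * (r + 25 * D * t ^ 2)) = 1) :
    ¬ Odd (padicValInt 5 (r + 16 * D * t ^ 2)) ∧ ps 5 (r + 16 * D * t ^ 2) = 1 := by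
  haveI : Fact (Nat.Prime 5) := ⟨Nat.prime_five⟩
  obtain ⟨m, hvs⟩ := vsum' (p := 5) hA hB hC hev
  rw [ps_mul (mul_ne_zero hA hB) hC, ps_mul hA hB] at hps
  by_cases hr : ((5 : ℕ) : ℤ) ∣ r
  · have ht := nd_of_coprime hrt hr
    have hDj : jacobiSym D 5 = 1 := by
      rw [jacobiSym.mod_left]
      have h5 : D % ((5 : ℕ) : ℤ) = 1 ∨ D % ((5 : ℕ) : ℤ) = 4 := by exact_mod_cast hD
      rcases h5 with h5 | h5
      · rw [h5]; norm_num
      · rw [h5]; norm_num
    have hDn : ¬ ((5 : ℕ) : ℤ) ∣ D := by push_cast; omega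
    have hj : jacobiSym (r + 16 * D * t ^ 2) 5 = 1 := by
      have h1 : jacobiSym (r + 16 * D * t ^ 2) 5 = jacobiSym (D * (4 * t) ^ 2) 5 := by
        refine jac_congr (p := 5) ?_
        have e : r + 16 * D * t ^ 2 - D * (4 * t) ^ 2 = r := by ring
        rw [e]; exact hr
      rw [h1, jac_mul_sq (p := 5) (nd_mul (by norm_num) ht), hDj]
    have hu : ¬ ((5 : ℕ) : ℤ) ∣ r + 16 * D * t ^ 2 := by
      intro h'
      have h1 := dvd_sub h' hr
      have e : r + 16 * D * t ^ 2 - r = D * (4 * t) ^ 2 := by ring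
      rw [e] at h1
      exact nd_mul hDn (nd_pow (nd_mul (by norm_num) ht) 2) h1
    rw [ps_unit hu, hj, val_unit hu]
    exact ⟨by decide, rfl⟩
  · have hC' : ((5 : ℕ) : ℤ) ∣ r + 25 * D * t ^ 2 - r := ⟨5 * D * t ^ 2, by push_cast; ring⟩
    have uC : ¬ ((5 : ℕ) : ℤ) ∣ r + 25 * D * t ^ 2 := by
      intro h'
      have := dvd_sub h' hC'
      rw [sub_sub_cancel] at this
      exact hr this
    have jC := jac_congr (p := 5) hC'
    rw [val_unit hr, val_unit uC] at hvs
    rw [ps_unit hr, ps_unit uC, jC] at hps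
    constructor
    · rw [Nat.not_odd_iff_even]
      exact ⟨m, by omega⟩
    · have := jac_mul_self (p := 5) hr
      have e : ps 5 (r + 16 * D * t ^ 2) =
          jacobiSym r 5 * ps 5 (r + 16 * D * t ^ 2) * jacobiSym r 5 := by
        linear_combination (-ps 5 (r + 16 * D * t ^ 2)) * this
      rw [e, hps]

theorem other_A' {ℓ : ℕ} (hℓ : ℓ.Prime) {D r t : ℤ} (h2 : ℓ ≠ 2) (h5 : ℓ ≠ 5) (hD : ¬ (ℓ : ℤ) ∣ D)
    (hrt : IsCoprime r t) (hA : r ≠ 0)
    (hB : r + 16 * D * t ^ 2 ≠ 0) (hC : r + 25 * D * t ^ 2 ≠ 0)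
    (hev : Even (padicValInt ℓ (r * (r + 16 * D * t ^ 2) * (r + 25 * D * t ^ 2)))) :
    ¬ Odd (padicValInt ℓ r) := by
  haveI : Fact ℓ.Prime := ⟨hℓ⟩
  obtain ⟨m, hvs⟩ := vsum' (p := ℓ) hA hB hC hev
  have n2 : ¬ (ℓ : ℤ) ∣ 2 := by
    intro h'
    exact h2 ((Nat.prime_dvd_prime_iff_eq hℓ Nat.prime_two).1 (by exact_mod_cast h'))
  have n5 : ¬ (ℓ : ℤ) ∣ 5 := by
    intro h'
    exact h5 ((Nat.prime_dvd_prime_iff_eq hℓ Nat.prime_five).1 (by exact_mod_cast h'))
  by_cases hr : (ℓ : ℤ) ∣ r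
  · have ht := nd_of_coprime hrt hr
    have uB : ¬ (ℓ : ℤ) ∣ r + 16 * D * t ^ 2 := by
      intro h'
      have h1 := dvd_sub h' hr
      have e : r + 16 * D * t ^ 2 - r = 2 ^ 4 * (D * t ^ 2) := by ring
      rw [e] at h1
      exact nd_mul (nd_pow n2 4) (nd_mul hD (nd_pow ht 2)) h1
    have uC : ¬ (ℓ : ℤ) ∣ r + 25 * D * t ^ 2 := by
      intro h'
      have h1 := dvd_sub h' hr
      have e : r + 25 * D * t ^ 2 - r = 5 ^ 2 * (D * t ^ 2) := by ring
      rw [e] at h1
      exact nd_mul (nd_pow n5 2) (nd_mul hD (nd_pow ht 2)) h1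
    rw [val_unit uB, val_unit uC] at hvs
    rw [Nat.not_odd_iff_even]
    exact ⟨m, by omega⟩
  · rw [val_unit hr]; decide

theorem other_B' {ℓ : ℕ} (hℓ : ℓ.Prime) {D r t : ℤ} (h2 : ℓ ≠ 2) (h3 : ℓ ≠ 3) (hD : ¬ (ℓ : ℤ) ∣ D)
    (hrt : IsCoprime r t) (hA : r ≠ 0)
    (hB : r + 16 * D * t ^ 2 ≠ 0) (hC : r + 25 * D * t ^ 2 ≠ 0)
    (hev : Even (padicValInt ℓ (r * (r + 16 * D * t ^ 2) * (r + 25 * D * t ^ 2)))) :
    ¬ Odd (padicValInt ℓ (r + 16 * D * t ^ 2)) := by
  haveI : Fact ℓ.Prime := ⟨hℓ⟩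
  obtain ⟨m, hvs⟩ := vsum' (p := ℓ) hA hB hC hev
  have n2 : ¬ (ℓ : ℤ) ∣ 2 := by
    intro h'
    exact h2 ((Nat.prime_dvd_prime_iff_eq hℓ Nat.prime_two).1 (by exact_mod_cast h'))
  have n3 : ¬ (ℓ : ℤ) ∣ 3 := by
    intro h'
    exact h3 ((Nat.prime_dvd_prime_iff_eq hℓ Nat.prime_three).1 (by exact_mod_cast h'))
  by_cases hb : (ℓ : ℤ) ∣ r + 16 * D * t ^ 2
  · have ht : ¬ (ℓ : ℤ) ∣ t := by
      intro h'
      have h2 : (ℓ : ℤ) ∣ 16 * D * t ^ 2 := Dvd.dvd.mul_left (Dvd.dvd.pow h' two_ne_zero) _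
      have h3 := dvd_sub hb h2
      rw [add_sub_cancel_right] at h3
      exact pI.not_unit (hrt.isUnit_of_dvd' h3 h')
    have uA : ¬ (ℓ : ℤ) ∣ r := by
      intro h'
      have h1 := dvd_sub hb h'
      have e : r + 16 * D * t ^ 2 - r = 2 ^ 4 * (D * t ^ 2) := by ring
      rw [e] at h1
      exact nd_mul (nd_pow n2 4) (nd_mul hD (nd_pow ht 2)) h1
    have uC : ¬ (ℓ : ℤ) ∣ r + 25 * D * t ^ 2 := by
      intro h'
      have h1 := dvd_sub h' hb
      have e : r + 25 * D * t ^ 2 - (r + 16 * D * t ^ 2) = 3 ^ 2 * (D * t ^ 2) := by ring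
      rw [e] at h1
      exact nd_mul (nd_pow n3 2) (nd_mul hD (nd_pow ht 2)) h1
    rw [val_unit uA, val_unit uC] at hvs
    rw [Nat.not_odd_iff_even]
    exact ⟨m, by omega⟩
  · rw [val_unit hb]; decide



end Pool.Agent.H468.X15
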