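import Pool.Agent.H468.X15S.Pad
import Pool.Agent.H468.X15S.Cls
import Pool.Graph.R_seed8.TH841.SH.Grp

/-!
# The Selmer groups of the twists of `X_0(15)`
-/

set_option autoImplicit false
set_option linter.all false

open scoped Classical

namespace Pool.Agent.H468.X15

open WeierstrassCurve
open Pool.Agent.TH841.SH
open Pool.Agent.W262.SH (QB Pt act LocTriv Sha)
open Pool.Agent.H757_X15.DD (Fm Crit)

/-- `W` has the roots `a`, `b = a - 16 D l²`, `c = a - 25 D l²` -/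
structure Mod (W : WeierstrassCurve ℚ) (D : ℤ) (a b c l : ℚ) : Prop where
  r : IsR W a b c
  l0 : l ≠ 0
  d0 : D ≠ 0
  hb : b = a - 16 * D * l ^ 2
  hc : c = a - 25 * D * l ^ 2

section mod

variable {W : WeierstrassCurve ℚ} {D : ℤ} {a b c l : ℚ}

theorem Mod.dl (m : Mod W D a b c l) : (D : ℚ) * l ^ 2 ≠ 0 :=
  mul_ne_zero (by exact_mod_cast m.d0) (pow_ne_zero 2 m.l0)

theorem Mod.ab (m : Mod W D a b c l) : a ≠ b := by
  intro h
  apply m.dl
  have := m.hb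
  linarith

theorem Mod.ac (m : Mod W D a b c l) : a ≠ c := by
  intro h
  apply m.dl
  have := m.hc
  linarith

theorem Mod.bc (m : Mod W D a b c l) : b ≠ c := by
  intro h
  apply m.dl
  have h1 := m.hc
  have h2 := m.hb
  linarith

end mod

theorem xor_aux {P A B : Prop} [Decidable P] [Decidable A] [Decidable B] (h : P ↔ (A ↔ B)) :
    decide (¬ P) = xor (decide (¬ A)) (decide (¬ B)) := by
  by_cases hA : A <;> by_cases hB : B <;> simp [h, hA, hB]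

/-- the character of a Selmer homomorphism -/
theorem exists_char {W : WeierstrassCurve ℚ} {a b c : ℚ} (h : IsR W a b c) (hab : a ≠ b)
    (hac : a ≠ c) (hbc : b ≠ c) {f : (QB ≃ₐ[ℚ] QB) → Pt W QB} (hf : f ∈ selHom W) :
    ∃ e : ℤ, Squarefree e ∧ ∀ s : QB, s ^ 2 = e → ∀ σ : QB ≃ₐ[ℚ] QB,
      σ s = s ↔ IsX (W.baseChange QB) (algebraMap ℚ QB a) (f σ) := by
  have hinj : Function.Injective (algebraMap ℚ QB) := (algebraMap ℚ QB).injective
  obtain ⟨h1, h2, h3, -⟩ := hf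
  obtain ⟨e, he, hes⟩ := kum (fun σ => decide (¬ IsX (W.baseChange QB) (algebraMap ℚ QB a) (f σ)))
    (h1.comp fun T => decide (¬ IsX (W.baseChange QB) (algebraMap ℚ QB a) T)) (fun σ τ => by
      have h4 := (h.base QB).isX_add two_ne_zero (hinj.ne hab) (hinj.ne hac) (hinj.ne hbc)
        (h2 σ) (h2 τ)
      simp only [h3]
      exact xor_aux h4)
  refine ⟨e, he, fun s hs σ => ?_⟩
  rw [hes s hs σ]
  simp

/-- the local points attached to a Selmer homomorphism -/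
theorem loc_gen {W : WeierstrassCurve ℚ} {D : ℤ} {a b c l : ℚ} (m : Mod W D a b c l)
    {f : (QB ≃ₐ[ℚ] QB) → Pt W QB} (hf : ∀ σ, f σ + f σ = 0)
    {K : Type} [Field K] [Algebra ℚ K] (h2K : (2 : K) ≠ 0) (hg : IsGalois K (AlgebraicClosure K))
    (hloc : LocTriv W K f)
    (hpt : ∃ q r1 r2 r3 : K, r1 ≠ 0 ∧ r2 ≠ 0 ∧ r3 ≠ 0 ∧ q = r1 ^ 2 ∧ q + 16 * D = r2 ^ 2 ∧
      q + 25 * D = r3 ^ 2)
    {e e' : ℤ} (he : ∀ s : QB, s ^ 2 = e → ∀ σ : QB ≃ₐ[ℚ] QB,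
      σ s = s ↔ IsX (W.baseChange QB) (algebraMap ℚ QB a) (f σ))
    (he' : ∀ s : QB, s ^ 2 = e' → ∀ σ : QB ≃ₐ[ℚ] QB,
      σ s = s ↔ IsX (W.baseChange QB) (algebraMap ℚ QB b) (f σ)) :
    ∃ x y : K, y ≠ 0 ∧ y ^ 2 = x * (x + 16 * D) * (x + 25 * D) ∧ IsSquare (x * e) ∧
      IsSquare ((x + 16 * D) * e') := by
  obtain ⟨s, hs⟩ := IsAlgClosed.exists_pow_nat_eq (e : QB) (n := 2) (by norm_num)
  obtain ⟨s', hs'⟩ := IsAlgClosed.exists_pow_nat_eq (e' : QB) (n := 2) (by norm_num)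
  have hinjK : Function.Injective (algebraMap ℚ K) := (algebraMap ℚ K).injective
  have h2Ω : (2 : AlgebraicClosure K) ≠ 0 := by
    have h3 := (map_ne_zero (algebraMap K (AlgebraicClosure K))).2 h2K
    rwa [map_ofNat] at h3
  set L : K := algebraMap ℚ K l with hL
  have hL0 : L ≠ 0 := by rw [hL, Ne, map_eq_zero]; exact m.l0
  have eb : algebraMap ℚ K b = algebraMap ℚ K a - 16 * D * L ^ 2 := by
    rw [m.hb, map_sub, map_mul, map_mul, map_pow, map_intCast, map_ofNat]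
  have ec : algebraMap ℚ K c = algebraMap ℚ K a - 25 * D * L ^ 2 := by
    rw [m.hc, map_sub, map_mul, map_mul, map_pow, map_intCast, map_ofNat]
  obtain ⟨x, y, hy, hxy, ⟨u, hu⟩, ⟨w, hw⟩⟩ := loc_step (K := K) (Ω := AlgebraicClosure K)
    h2Ω h2K m.r m.ab m.ac m.bc f hf hloc (by
      obtain ⟨q, r1, r2, r3, n1, n2, n3, q1, q2, q3⟩ := hpt
      refine ⟨algebraMap ℚ K a + L ^ 2 * q, L ^ 3 * (r1 * r2 * r3), ?_, ?_, ⟨L * r1, ?_⟩,
        ⟨L * r2, ?_⟩, ⟨L * r3, ?_⟩⟩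
      · exact mul_ne_zero (pow_ne_zero 3 hL0) (mul_ne_zero (mul_ne_zero n1 n2) n3)
      · rw [eb, ec]
        have : (algebraMap ℚ K a + L ^ 2 * q - algebraMap ℚ K a) *
          (algebraMap ℚ K a + L ^ 2 * q - (algebraMap ℚ K a - 16 * D * L ^ 2)) *
          (algebraMap ℚ K a + L ^ 2 * q - (algebraMap ℚ K a - 25 * D * L ^ 2)) =
          L ^ 6 * (q * (q + 16 * D) * (q + 25 * D)) := by ring
        rw [this, q2, q3, q1]
        ring
      · rw [q1]; ring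
      · rw [eb]
        have : algebraMap ℚ K a + L ^ 2 * q - (algebraMap ℚ K a - 16 * D * L ^ 2) =
          L ^ 2 * (q + 16 * D) := by ring
        rw [this, q2]; ring
      · rw [ec]
        have : algebraMap ℚ K a + L ^ 2 * q - (algebraMap ℚ K a - 25 * D * L ^ 2) =
          L ^ 2 * (q + 25 * D) := by ring
        rw [this, q3]; ring) e e' s s' hs hs' (he s hs) (he' s' hs')
  rw [eb] at hxy hw
  rw [ec] at hxy
  refine ⟨(x - algebraMap ℚ K a) / L ^ 2, y / L ^ 3, div_ne_zero hy (pow_ne_zero 3 hL0), ?_,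
    ⟨u / L, ?_⟩, ⟨w / L, ?_⟩⟩
  · rw [div_pow, hxy]
    field_simp
    ring
  · rw [div_mul_div_comm, ← hu]
    field_simp
  · rw [div_mul_div_comm, ← hw]
    field_simp
    ring

theorem pt_p (D : ℤ) (p : ℕ) [hp : Fact p.Prime] :
    ∃ q r1 r2 r3 : ℚ_[p], r1 ≠ 0 ∧ r2 ≠ 0 ∧ r3 ≠ 0 ∧ q = r1 ^ 2 ∧ q + 16 * D = r2 ^ 2 ∧
      q + 25 * D = r3 ^ 2 := by
  have hpz : (p : ℚ_[p]) ≠ 0 := by exact_mod_cast hp.out.ne_zero
  have hp1 : (1 : ℝ) < p := by exact_mod_cast hp.out.one_lt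
  have hpn : ‖(p : ℚ_[p])‖ = (p : ℝ)⁻¹ := Padic.norm_p
  have h4 : ‖(p : ℚ_[p]) ^ 4‖ < ‖(4 : ℚ_[p])‖ := by
    by_cases h2 : p = 2
    · subst h2
      have e : ((2 : ℕ) : ℚ_[2]) ^ 4 = 4 * 4 := by norm_num
      rw [e, norm_mul]
      have h5 : ‖(4 : ℚ_[2])‖ < 1 := by
        have h6 : ‖((4 : ℤ) : ℚ_[2])‖ < 1 := Padic.norm_intCast_lt_one_iff.2 (by norm_num)
        exact_mod_cast h6
      exact mul_lt_of_lt_one_left norm_four_pos h5
    · have h5 : ‖(4 : ℚ_[p])‖ = 1 := by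
        have h6 : ¬ (p : ℤ) ∣ 4 := by
          intro h'
          have h7 : (p : ℤ) ∣ 2 ^ 2 := by norm_num; exact h'
          have h8 := pI.dvd_of_dvd_pow h7
          exact h2 ((Nat.prime_dvd_prime_iff_eq hp.out Nat.prime_two).1 (by exact_mod_cast h8))
        have h8 : ‖((4 : ℤ) : ℚ_[p])‖ = 1 := by
          rcases (Padic.norm_int_le_one (p := p) 4).lt_or_eq with h2 | h2
          · exact absurd (Padic.norm_intCast_lt_one_iff.1 h2) h6
          · exact h2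
        exact_mod_cast h8
      rw [h5, norm_pow, hpn]
      exact pow_lt_one₀ (by positivity) (inv_lt_one_of_one_lt₀ hp1) (by norm_num)
  have key : ∀ c : ℤ, ∃ r : ℚ_[p], r ≠ 0 ∧ ((p : ℚ_[p]) ^ 2)⁻¹ ^ 2 + c = r ^ 2 := by
    intro c
    have h5 : ‖(c : ℚ_[p]) * (p : ℚ_[p]) ^ 4‖ < ‖(4 : ℚ_[p])‖ := by
      rw [norm_mul]
      exact (mul_le_of_le_one_left (norm_nonneg _) (Padic.norm_int_le_one c)).trans_lt h4
    obtain ⟨r, hr⟩ := hens h5
    refine ⟨r / (p : ℚ_[p]) ^ 2, div_ne_zero ?_ (pow_ne_zero 2 hpz), ?_⟩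
    · rintro rfl
      rw [mul_zero] at hr
      have : (c : ℚ_[p]) * (p : ℚ_[p]) ^ 4 = -1 := by linear_combination hr
      rw [this, norm_neg, norm_one] at h5
      exact absurd norm_four_le (not_le.2 h5)
    · rw [div_pow, sq r, ← hr]
      field_simp
  obtain ⟨r2, n2, e2⟩ := key (16 * D)
  obtain ⟨r3, n3, e3⟩ := key (25 * D)
  push_cast at e2 e3
  exact ⟨((p : ℚ_[p]) ^ 2)⁻¹ ^ 2, ((p : ℚ_[p]) ^ 2)⁻¹, r2, r3, inv_ne_zero (pow_ne_zero 2 hpz),
    n2, n3, rfl, e2, e3⟩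

/-- transfer of the symbols -/
theorem tr_val {p : ℕ} [hp : Fact p.Prime] {n e : ℤ} (hn : n ≠ 0) (he : Squarefree e)
    (h : IsSquare ((n * e : ℤ) : ℚ_[p])) : Odd (padicValInt p n) ↔ (p : ℤ) ∣ e := by
  have he0 := he.ne_zero
  have h1 := sq_val (mul_ne_zero hn he0) h
  rw [val_mul hn he0] at h1
  have h2 : padicValInt p e ≤ 1 := by
    by_contra hcon
    push Not at hcon
    have h3 : (p : ℤ) ^ 2 ∣ e := (padicValInt_dvd_iff _ _).2 (Or.inr hcon)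
    rw [sq] at h3
    exact pI.not_unit (he _ h3)
  constructor
  · intro h3
    by_contra h4
    rw [val_unit h4, add_zero] at h1
    exact (Nat.not_even_iff_odd.2 h3) h1
  · intro h3
    have h4 : padicValInt p e = 1 := by
      have h5 : 1 ≤ padicValInt p e := by
        rcases (padicValInt_dvd_iff 1 e).1 (by rwa [pow_one]) with h6 | h6
        · exact absurd h6 he0
        · exact h6
      omega
    rw [h4] at h1
    rw [← Nat.not_even_iff_odd]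
    intro h5
    exact absurd h1 (by rw [Nat.even_add_one]; exact not_not.2 h5)

theorem tr_ps {p : ℕ} [hp : Fact p.Prime] {n e : ℤ} (hn : n ≠ 0) (he : e ≠ 0)
    (h : IsSquare ((n * e : ℤ) : ℚ_[p])) : ps p e = ps p n := by
  have h1 := sq_ps (mul_ne_zero hn he) h
  rw [ps_mul hn he] at h1
  rcases ps_pm (p := p) hn with h2 | h2 <;> rcases ps_pm (p := p) he with h3 | h3 <;>
    rw [h2, h3] at h1 ⊢ <;> norm_num at h1

theorem tr_p2 {n e : ℤ} (hn : n ≠ 0) (he : e ≠ 0)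
    (h : IsSquare ((n * e : ℤ) : ℚ_[2])) : p2 e = p2 n := by
  have h1 := sq_p2 (mul_ne_zero hn he) h
  rw [p2_mul hn he] at h1
  rcases p2_pm hn with h2 | h2 <;> rcases p2_pm he with h3 | h3 <;>
    rw [h2, h3] at h1 ⊢ <;> norm_num at h1

/-- the class of a Selmer homomorphism -/
theorem sel_class {W : WeierstrassCurve ℚ} {D : ℕ} {a b c l : ℚ} (m : Mod W D a b c l)
    (hD : Squarefree D) (hF : Fm D) (hC : Crit D) (h1 : D ≠ 1)
    {f : (QB ≃ₐ[ℚ] QB) → Pt W QB} (hf : f ∈ selHom W) {e e' : ℤ} (hes : Squarefree e)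
    (hes' : Squarefree e') (he : ∀ s : QB, s ^ 2 = e → ∀ σ : QB ≃ₐ[ℚ] QB,
      σ s = s ↔ IsX (W.baseChange QB) (algebraMap ℚ QB a) (f σ))
    (he' : ∀ s : QB, s ^ 2 = e' → ∀ σ : QB ≃ₐ[ℚ] QB,
      σ s = s ↔ IsX (W.baseChange QB) (algebraMap ℚ QB b) (f σ)) :
    (e = 1 ∧ e' = 1) ∨ (e = 1 ∧ e' = D) ∨ (e = -D ∧ e' = -1) ∨ (e = -D ∧ e' = -D) := by
  have he0 := hes.ne_zero
  have he0' := hes'.ne_zero
  have hD0 : D ≠ 0 := hD.ne_zero
  have key : ∀ (p : ℕ) [Fact p.Prime], ∃ r t : ℤ, IsCoprime r t ∧ r ≠ 0 ∧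
      r + 16 * D * t ^ 2 ≠ 0 ∧ r + 25 * D * t ^ 2 ≠ 0 ∧
      IsSquare ((r * e : ℤ) : ℚ_[p]) ∧ IsSquare (((r + 16 * D * t ^ 2) * e' : ℤ) : ℚ_[p]) ∧
      IsSquare ((r * (r + 16 * D * t ^ 2) * (r + 25 * D * t ^ 2) : ℤ) : ℚ_[p]) := by
    intro p _
    obtain ⟨x, y, hy, hxy, s1, s2⟩ := loc_gen m hf.2.1 two_ne_zero inferInstance (hf.2.2.2.1 p) (pt_p D p) he he'
    obtain ⟨r, t, k1, k2, k3, k4, k5, k6, k7⟩ := appr (p := p) D hy hxy
    exact ⟨r, t, k1, k2, k3, k4, k5 e s1, k6 e' s2, k7⟩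
  have hD4 : (D : ℤ) % 4 = 1 := by rcases hF with h | h <;> omega
  have hD3 : (D : ℤ) % 3 = 1 := by rcases hF with h | h <;> omega
  have hD5 : (D : ℤ) % 5 = 1 ∨ (D : ℤ) % 5 = 4 := by
    rcases hF with h | h
    · left; omega
    · right; omega
  -- the sign
  have hsign : e' < 0 ↔ e < 0 := by
    obtain ⟨x, y, hy, hxy, ⟨u, hu⟩, ⟨w, hw⟩⟩ := loc_gen m hf.2.1 two_ne_zero inferInstance hf.2.2.2.2 (by
      have hDp : (0 : ℝ) < ((D : ℤ) : ℝ) := by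
        have : 0 < D := Nat.pos_of_ne_zero hD0
        exact_mod_cast this
      have a1 : (0 : ℝ) < 1 + 16 * ((D : ℤ) : ℝ) := by linarith
      have a2 : (0 : ℝ) < 1 + 25 * ((D : ℤ) : ℝ) := by linarith
      exact ⟨1, 1, Real.sqrt (1 + 16 * ((D : ℤ) : ℝ)), Real.sqrt (1 + 25 * ((D : ℤ) : ℝ)),
        one_ne_zero, (Real.sqrt_pos.2 a1).ne', (Real.sqrt_pos.2 a2).ne', by norm_num,
        (Real.sq_sqrt a1.le).symm, (Real.sq_sqrt a2.le).symm⟩) he he'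
    have hDp : (0 : ℝ) < ((D : ℤ) : ℝ) := by
      have : 0 < D := Nat.pos_of_ne_zero hD0
      exact_mod_cast this
    have hpos : 0 < x * (x + 16 * ((D : ℤ) : ℝ)) * (x + 25 * ((D : ℤ) : ℝ)) := by
      rw [← hxy]; positivity
    have nC := right_ne_zero_of_mul hpos.ne'
    have nB := right_ne_zero_of_mul (left_ne_zero_of_mul hpos.ne')
    have nA := left_ne_zero_of_mul (left_ne_zero_of_mul hpos.ne')
    have c1 : 0 ≤ x * (e : ℝ) := by rw [hu]; exact mul_self_nonneg u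
    have c2 : 0 ≤ (x + 16 * ((D : ℤ) : ℝ)) * (e' : ℝ) := by rw [hw]; exact mul_self_nonneg w
    have er : (e : ℝ) ≠ 0 := by exact_mod_cast he0
    have er' : (e' : ℝ) ≠ 0 := by exact_mod_cast he0'
    have hiff : x + 16 * ((D : ℤ) : ℝ) < 0 ↔ x < 0 := by
      constructor
      · intro hb; linarith
      · intro hr
        by_contra hb
        push Not at hb
        have hb' : 0 < x + 16 * ((D : ℤ) : ℝ) := lt_of_le_of_ne hb (Ne.symm nB)
        have hc' : 0 < x + 25 * ((D : ℤ) : ℝ) := by linarith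
        have := mul_neg_of_neg_of_pos (mul_neg_of_neg_of_pos hr hb') hc'
        linarith
    have i1 : (e : ℝ) < 0 ↔ x < 0 := by
      constructor
      · intro h
        by_contra h'
        push Not at h'
        have h'' : 0 < x := lt_of_le_of_ne h' (Ne.symm nA)
        have := mul_neg_of_pos_of_neg h'' h
        linarith
      · intro h
        by_contra h'
        push Not at h'
        have h'' : 0 < (e : ℝ) := lt_of_le_of_ne h' (Ne.symm er)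
        have := mul_neg_of_neg_of_pos h h''
        linarith
    have i2 : (e' : ℝ) < 0 ↔ x + 16 * ((D : ℤ) : ℝ) < 0 := by
      constructor
      · intro h
        by_contra h'
        push Not at h'
        have h'' : 0 < x + 16 * ((D : ℤ) : ℝ) := lt_of_le_of_ne h' (Ne.symm nB)
        have := mul_neg_of_pos_of_neg h'' h
        linarith
      · intro h
        by_contra h'
        push Not at h'
        have h'' : 0 < (e' : ℝ) := lt_of_le_of_ne h' (Ne.symm er')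
        have := mul_neg_of_neg_of_pos h h''
        linarith
    have j1 : (e : ℝ) < 0 ↔ e < 0 := by norm_cast
    have j2 : (e' : ℝ) < 0 ↔ e' < 0 := by norm_cast
    rw [← j1, ← j2, i1, i2, hiff]
  -- the prime two
  haveI f2 : Fact (Nat.Prime 2) := ⟨Nat.prime_two⟩
  haveI f3 : Fact (Nat.Prime 3) := ⟨Nat.prime_three⟩
  haveI f5 : Fact (Nat.Prime 5) := ⟨Nat.prime_five⟩
  obtain ⟨r2, t2, a1, a2, a3, a4, a5, a6, a7⟩ := key 2
  obtain ⟨b1, b2, b3⟩ := two' hD4 a1 a2 a3 a4 (sq_val (mul_ne_zero (mul_ne_zero a2 a3) a4) a7)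
    (sq_p2 (mul_ne_zero (mul_ne_zero a2 a3) a4) a7)
  rw [tr_val a2 hes a5] at b1
  rw [tr_val a3 hes' a6] at b2
  rw [← tr_p2 a2 he0 a5, ← tr_p2 a3 he0' a6] at b3
  -- the prime three
  obtain ⟨r3, t3, c1, c2, c3, c4, c5, c6, c7⟩ := key 3
  have d1 := three' hD3 c1 c2 c3 c4 (sq_val (mul_ne_zero (mul_ne_zero c2 c3) c4) c7)
    (sq_ps (mul_ne_zero (mul_ne_zero c2 c3) c4) c7)
  rw [tr_val c3 hes' c6] at d1
  -- the prime five
  obtain ⟨r5, t5, g1, g2, g3, g4, g5, g6, g7⟩ := key 5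
  obtain ⟨k1, k2⟩ := five' hD5 g1 g2 g3 g4 (sq_val (mul_ne_zero (mul_ne_zero g2 g3) g4) g7)
    (sq_ps (mul_ne_zero (mul_ne_zero g2 g3) g4) g7)
  rw [← tr_ps g3 he0' g6] at k2
  refine sel_classes hD hF hC h1 hes hes' hsign (by exact_mod_cast b1) (by exact_mod_cast b2) b3
    (by exact_mod_cast d1) k2 ?_ ?_ ?_
  · intro ℓ hℓ hℓ2 hℓ5 hℓD
    haveI : Fact ℓ.Prime := ⟨hℓ⟩
    obtain ⟨r, t, l1, l2, l3, l4, l5, l6, l7⟩ := key ℓ
    rw [← tr_val l2 hes l5]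
    exact other_A' hℓ hℓ2 hℓ5 (by exact_mod_cast hℓD) l1 l2 l3 l4
      (sq_val (mul_ne_zero (mul_ne_zero l2 l3) l4) l7)
  · intro ℓ hℓ hℓ2 hℓ3 hℓD
    haveI : Fact ℓ.Prime := ⟨hℓ⟩
    obtain ⟨r, t, l1, l2, l3, l4, l5, l6, l7⟩ := key ℓ
    rw [← tr_val l3 hes' l6]
    exact other_B' hℓ hℓ2 hℓ3 (by exact_mod_cast hℓD) l1 l2 l3 l4
      (sq_val (mul_ne_zero (mul_ne_zero l2 l3) l4) l7)
  · intro p hp h7 D' hDD hD'
    haveI : Fact p.Prime := ⟨hp⟩
    obtain ⟨r, t, l1, l2, l3, l4, l5, l6, l7⟩ := key p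
    have q1 := tr_val l2 hes l5
    have q2 := tr_val l3 hes' l6
    have q3 := tr_ps l2 he0 l5
    have q4 := tr_ps l3 he0' l6
    have v7 := sq_val (mul_ne_zero (mul_ne_zero l2 l3) l4) l7
    have p7 := sq_ps (mul_ne_zero (mul_ne_zero l2 l3) l4) l7
    have eD : ((D : ℕ) : ℤ) = p * D' := by rw [hDD]; push_cast; rfl
    rw [eD] at l3 l4 v7 p7 q2 q4
    obtain ⟨o1, o2⟩ := loc' h7 (D' := (D' : ℤ)) (by exact_mod_cast hD') l1 l2 l3 l4 v7 p7
    simp only [q1] at o1 o2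
    simp only [q2] at o2
    rw [q3, q4]
    exact ⟨o1, o2⟩

end Pool.Agent.H468.X15
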